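import Pool.Agent.H96R.DP.Base

/-!
# Nonuniform reductions of subexponential size
-/

set_option autoImplicit false

namespace Pool.Agent.H96R.DP2

open Pool.Agent.NPC Pool.Agent.H628R3.RO

/-- The advice string for the length `n` has length `2 ^ o(n)`. -/
def Short (adv : ℕ → List Bool) : Prop :=
  ∀ ε : ℝ, 0 < ε → ∃ n₀ : ℕ, ∀ n ≥ n₀, ((adv n).length : ℝ) ≤ (2 : ℝ) ^ (ε * (n : ℝ))

/-- The pair `(L₀, L₁)` reduces to the pair `(K₀, K₁)` by a nonuniform many-one reduction of
subexponential size: there are an oracle algorithm `M`, running in time polynomial in the length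
of its input, and an advice string `adv n` of length `2 ^ o(n)` for each `n`, such that `M`, given
`x` and the advice string for the length of `x`, computes `F x`, and `F` maps `L₀` into `K₀` and
`L₁` into `K₁`. -/
def SubexpRed (O : Oracle) (L₀ L₁ K₀ K₁ : Set (List Bool)) : Prop :=
  ∃ (M : Alg) (adv : ℕ → List Bool) (F : List Bool → List Bool), Short adv ∧
    (∀ x, M.out O (pairBits x (adv x.length)) = some (F x)) ∧
    (∀ x ∈ L₀, F x ∈ K₀) ∧ (∀ x ∈ L₁, F x ∈ K₁)

end Pool.Agent.H96R.DP2
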