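import Pool.Agent.H96R.DP2.Dens2
import Pool.Agent.H96R.DP2.Red
import Pool.Agent.H96R.DP.Lang
import Pool.Agent.H96R.DP.Main

/-!
# No disjoint NP pair is hard, relative to a random oracle, even for reductions with advice
-/

set_option autoImplicit false

namespace Pool.Agent.H96R.DP2

open MeasureTheory Pool.Agent.NPC Pool.Agent.H628R3.RO Pool.Agent.H96R.DP Filter

section

variable (B : Oracle) (V : Bool → Alg) (p : Bool → Polynomial ℕ) (b : Polynomial ℕ)

/-- the oracles for which the candidate pair might be hard -/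
def EE : Set Oracle :=
  {A | (∀ n, A ∉ Err B V p n) ∧ ∀ (t : ℕ) (L : List (List Bool)),
    (∃ k₀, A ∈ NT B V p b t L k₀) → ∃ (r : Alg) (k₀ : ℕ), A ∈ GA B V p b t L r k₀}

theorem measurableSet_EE : MeasurableSet (EE B V p b) := by
  have h : EE B V p b = (⋂ n, (Err B V p n)ᶜ) ∩ ⋂ (t : ℕ) (L : List (List Bool)),
      ((⋃ k₀, NT B V p b t L k₀)ᶜ ∪ ⋃ (r : Alg) (k₀ : ℕ), GA B V p b t L r k₀) := by
    ext A
    simp only [EE, Set.mem_ofPred_eq, Set.mem_inter_iff, Set.mem_iInter, Set.mem_compl_iff,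
      Set.mem_union, Set.mem_iUnion]
    refine and_congr_right fun _ => forall₂_congr fun t L => ?_
    exact imp_iff_not_or
  rw [h]
  refine MeasurableSet.inter (MeasurableSet.iInter fun n => (measurableSet_Err V p B n).compl) ?_
  refine MeasurableSet.iInter fun t => MeasurableSet.iInter fun L => MeasurableSet.union ?_ ?_
  · exact (MeasurableSet.iUnion fun k₀ => measurableSet_NT B V p b t L k₀).compl
  · exact MeasurableSet.iUnion fun r => MeasurableSet.iUnion fun k₀ =>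
      measurableSet_GA B V p b t L r k₀

variable {V p b}

theorem prob_EE (hb : Bd V p b) : prob (EE B V p b) = 0 := by
  by_contra hne
  have h0 : 0 < prob (EE B V p b) := lt_of_le_of_ne (prob_nonneg _) (Ne.symm hne)
  have hm := measurableSet_EE B V p b
  obtain ⟨t, L, hd⟩ := exists_cyl hm h0
  have hc := prob_cyl_pos t L
  -- few errors
  have hε : prob (cyl t L ∩ ⋃ n, Err B V p n) ≤ prob (cyl t L) / 8 := by
    have h1 : cyl t L ∩ ⋃ n, Err B V p n ⊆ cyl t L \ EE B V p b := by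
      rintro A ⟨h2, h3⟩
      refine ⟨h2, fun h4 => ?_⟩
      obtain ⟨n, hn⟩ := Set.mem_iUnion.1 h3
      exact h4.1 n hn
    have h2 := prob_mono h1
    have h3 := prob_inter_add_sdiff (cyl t L) hm
    linarith
  have hae := ae_not_Two B V p b t L hb.le_eval (fun n => hb.locErr B n) hε hc
  -- a sequence of all the good events
  have hne' : Nonempty (Alg × ℕ) := ⟨⟨⟨fun x => x, polyTime_id, 0⟩, 0⟩⟩
  obtain ⟨f, hf⟩ := exists_surjective_nat (Alg × ℕ)
  have h1 : 7 / 8 * prob (cyl t L) ≤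
      prob (cyl t L ∩ ⋃ i, GA B V p b t L (f i).1 (f i).2) := by
    refine hd.trans ?_
    have h2 : prob (cyl t L ∩ EE B V p b) ≤
        prob (cyl t L ∩ ⋃ i, GA B V p b t L (f i).1 (f i).2) := by
      unfold prob
      rw [measureReal_def, measureReal_def]
      refine ENNReal.toReal_mono (measure_ne_top _ _) (measure_mono_ae ?_)
      filter_upwards [hae] with A hA
      rintro ⟨h3, h4⟩
      refine ⟨h3, ?_⟩
      obtain ⟨r, k₀, h5⟩ := h4.2 t L hA
      obtain ⟨i, hi⟩ := hf (r, k₀)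
      refine Set.mem_iUnion.2 ⟨i, ?_⟩
      rw [hi]
      exact h5
    exact h2
  obtain ⟨K, hK⟩ := ck_fail' B V p b t L (G := fun i => GA B V p b t L (f i).1 (f i).2)
    (fun i => measurableSet_GA B V p b t L _ _) (fun i => ⟨_, _, le_rfl⟩) h1
  obtain ⟨k, hk, hk'⟩ := exists_ck B V p b t L hb.le_eval (fun n => hb.locErr B n) hε hc K
  rw [hK k hk] at hk'
  exact absurd hk' (by simp)

end

/-- short advice is shorter than `2 ^ (n / D)` at the instances of the blocks -/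
theorem short_block {adv : ℕ → List Bool} (h : Short adv) {D : ℕ} (hD : 0 < D) :
    ∃ N : ℕ, ∀ n ≥ N, ∀ j ≤ n, (adv (n + 1 + nb n j)).length ≤ 2 ^ (n / D) := by
  obtain ⟨N, hN⟩ := h (1 / (14 * D)) (by positivity)
  refine ⟨N + 2 * D + 1, fun n hn j hj => ?_⟩
  have h1 := hN (n + 1 + nb n j) (by omega)
  have h2 : n + 1 + nb n j ≤ 7 * n := by
    unfold nb
    omega
  have h3 : (1 / (14 * (D : ℝ))) * ((n + 1 + nb n j : ℕ) : ℝ) ≤ ((n / D : ℕ) : ℝ) := by
    have e1 : ((n + 1 + nb n j : ℕ) : ℝ) ≤ 7 * n := by exact_mod_cast h2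
    have e2 : n ≤ 2 * (D * (n / D)) := by
      have f1 := Nat.div_add_mod n D
      have f2 := Nat.mod_lt n hD
      omega
    have e3 : (n : ℝ) ≤ 2 * (D * ((n / D : ℕ) : ℝ)) := by exact_mod_cast e2
    have e4 : (0 : ℝ) < D := by exact_mod_cast hD
    rw [div_mul_eq_mul_div, one_mul, div_le_iff₀ (by positivity)]
    nlinarith
  have h4 : (2 : ℝ) ^ ((1 / (14 * (D : ℝ))) * ((n + 1 + nb n j : ℕ) : ℝ)) ≤
      (2 : ℝ) ^ ((n / D : ℕ) : ℝ) :=
    Real.rpow_le_rpow_of_exponent_le (by norm_num) h3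
  rw [Real.rpow_natCast] at h4
  exact_mod_cast h1.trans h4

/-- If all the disjoint pairs of languages in `UP` are reducible to a disjoint pair of languages in
`NP`, then the oracle is exceptional. -/
theorem mem_EE {A B : Oracle} {K₀ K₁ : Set (List Bool)} (hK : IsPair (IsNP (jn A B)) K₀ K₁)
    (h : ∀ L₀ L₁, IsPair (IsUP (jn A B)) L₀ L₁ → SubexpRed (jn A B) L₀ L₁ K₀ K₁) :
    ∃ (V : Bool → Alg) (p : Bool → Polynomial ℕ), ∀ b, Bd V p b → A ∈ EE B V p b := by
  obtain ⟨⟨V0, p0, ⟨M0, hM0⟩, h0⟩, ⟨V1, p1, ⟨M1, hM1⟩, h1⟩, hdis⟩ := hK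
  obtain ⟨V, hV⟩ : ∃ V : Bool → Alg, V = fun c => if c = true then M1 else M0 := ⟨_, rfl⟩
  obtain ⟨p, hp⟩ : ∃ p : Bool → Polynomial ℕ, p = fun c => if c = true then p1 else p0 := ⟨_, rfl⟩
  have w0 : ∀ x, Wit (V false) (p false) x (jn A B) ↔ x ∈ K₀ := by
    intro x
    rw [h0 x, hV, hp]
    unfold Wit
    refine exists_congr fun y => ?_
    simp only [Bool.false_eq_true, if_false, hM0, Option.some.injEq]
  have w1 : ∀ x, Wit (V true) (p true) x (jn A B) ↔ x ∈ K₁ := by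
    intro x
    rw [h1 x, hV, hp]
    unfold Wit
    refine exists_congr fun y => ?_
    simp only [if_true, hM1, Option.some.injEq]
  refine ⟨V, p, fun b hb => ⟨?_, ?_⟩⟩
  · rintro n ⟨x, -, hx⟩
    exact hdis x ⟨(w0 x).1 (hx false), (w1 x).1 (hx true)⟩
  · rintro t L ⟨k₀, hk⟩
    have hpair := isPair_LL hb t L (Tt b t k₀) A B
      (fun k hk' => hk k ((Tt_strictMono b t).le_iff_le.1 hk'))
    obtain ⟨r, adv, F, hadv, hr, hF0, hF1⟩ := h _ _ hpair
    obtain ⟨q, tt, hDr, -⟩ := Dr_spec V p r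
    obtain ⟨N, hN⟩ := short_block hadv hDr
    refine ⟨r, max k₀ N, fun k hk' => ?_⟩
    have hk1 : k₀ ≤ k := (le_max_left _ _).trans hk'
    have hk3 : N ≤ Tt b t k := ((le_max_right _ _).trans hk').trans (le_Tt b t k)
    have hk2 : Tt b t k₀ ≤ Tt b t k := (Tt_strictMono b t).monotone hk1
    refine ⟨adv (Tt b t k + 1 + nb (Tt b t k) (lv B V p b t L k)),
      hN _ hk3 _ (lv_le_Tt B V p b t L k), fun c w hw => ?_⟩
    refine ⟨F (inst (Tt b t k) (vl (nb (Tt b t k) (lv B V p b t L k)) (c.toNat, w) A)), ?_, ?_⟩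
    · have e1 := hr (inst (Tt b t k) (vl (nb (Tt b t k) (lv B V p b t L k)) (c.toNat, w) A))
      have e2 : (inst (Tt b t k) (vl (nb (Tt b t k) (lv B V p b t L k)) (c.toNat, w) A)).length =
          Tt b t k + 1 + nb (Tt b t k) (lv B V p b t L k) := by
        rw [length_inst, length_vl]
      rw [e2] at e1
      exact e1
    · cases c
      · rw [w0]
        exact hF0 _ ⟨k, hk2, w, mem_sn.1 hw, rfl⟩
      · rw [w1]
        exact hF1 _ ⟨k, hk2, w, mem_sn.1 hw, rfl⟩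

/-- Polynomial-time reductions are a special case. -/
theorem subexpRed_of_redPair {O : Oracle} {L₀ L₁ K₀ K₁ : Set (List Bool)}
    (h : RedPair O L₀ L₁ K₀ K₁) : SubexpRed O L₀ L₁ K₀ K₁ := by
  obtain ⟨F, hF, h0, h1⟩ := h
  have h2 : IsFP O (fun y => F (unpair y).1) :=
    IsFP.comp hF (IsFP.of_poly (Poly.fst poly_unpair))
  obtain ⟨M, hM⟩ := h2
  refine ⟨M, fun _ => [], F, ?_, fun x => ?_, h0, h1⟩
  · intro ε _
    refine ⟨0, fun n _ => ?_⟩
    simp only [List.length_nil, Nat.cast_zero]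
    positivity
  · rw [hM]
    simp only [unpair_pairBits]

/-- **Main theorem.** -/
theorem main (B : Oracle) : ∀ᵐ A ∂randomOracle, ∀ K₀ K₁ : Set (List Bool),
    IsPair (IsNP (jn A B)) K₀ K₁ → ∃ L₀ L₁ : Set (List Bool),
      IsPair (IsUP (jn A B)) L₀ L₁ ∧ ¬ SubexpRed (jn A B) L₀ L₁ K₀ K₁ := by
  have h1 : ∀ c : (Bool → Alg) × (Bool → Polynomial ℕ), ∀ᵐ A ∂randomOracle,
      ¬ (∀ b, Bd c.1 c.2 b → A ∈ EE B c.1 c.2 b) := by
    rintro ⟨V, p⟩
    obtain ⟨b, hb⟩ := exists_Bd V p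
    have h2 : randomOracle (EE B V p b) = 0 := by
      have h3 := prob_EE B hb
      unfold prob at h3
      rwa [measureReal_eq_zero_iff (measure_ne_top _ _)] at h3
    have h3 : ∀ᵐ A ∂randomOracle, A ∉ EE B V p b := measure_eq_zero_iff_ae_notMem.1 h2
    filter_upwards [h3] with A hA h4
    exact hA (h4 b hb)
  have hcp := countable_polynomial
  have h2 := (ae_all_iff (μ := randomOracle)).2 h1
  filter_upwards [h2] with A hA K₀ K₁ hK
  by_contra hcon
  push Not at hcon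
  obtain ⟨V, p, h3⟩ := mem_EE hK hcon
  exact hA (V, p) h3

end Pool.Agent.H96R.DP2
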