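import Pool.Agent.H96R.DP2.Key2

/-!
# The checks fail if reductions with advice work
-/

set_option autoImplicit false

namespace Pool.Agent.H96R.DP2

open MeasureTheory Pool.Agent.NPC Pool.Agent.H628R3.RO Pool.Agent.H96R.DP Filter

theorem poly_le (P : Polynomial ℕ) : ∃ C d : ℕ, ∀ y ≥ 1, P.eval y ≤ C * y ^ d := by
  induction P using Polynomial.induction_on' with
  | add p q hp hq =>
    obtain ⟨C, d, h1⟩ := hp
    obtain ⟨C', d', h2⟩ := hq
    refine ⟨C + C', d + d', fun y hy => ?_⟩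
    rw [Polynomial.eval_add, add_mul]
    refine add_le_add ((h1 y hy).trans ?_) ((h2 y hy).trans ?_)
    · exact Nat.mul_le_mul_left _ (Nat.pow_le_pow_right hy (by omega))
    · exact Nat.mul_le_mul_left _ (Nat.pow_le_pow_right hy (by omega))
  | monomial k a => exact ⟨a, k, fun y _ => by rw [Polynomial.eval_monomial]⟩

/-- the parameters for the key inequality -/
theorem exists_q' (V : Bool → Alg) (p : Bool → Polynomial ℕ) (r : Alg) :
    ∃ (D : ℕ) (q t : ℕ → ℕ), 0 < D ∧ (∀ δ : ℝ, 0 < δ → ∃ N₀, ∀ n ≥ N₀,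
      q n ≤ 2 ^ n ∧ 2 * ((q n : ℝ) / 2 ^ n) ≤ 1 / 8 ∧
      (t n : ℝ) ^ 2 * (2 * ((q n + 1 : ℕ) : ℝ) * cK n) +
        2 ^ (2 ^ (n / D) + 1) * (15 / 16) ^ (t n) ≤ δ) ∧
    ∀ (B : Oracle) (n j : ℕ), j ≤ n → ∀ (c : Bool) (A : Oracle) (x : List Bool),
      x.length ≤ 2 * (n + 1 + nb n j) + 1 + 2 ^ (n / D) →
      (∃ z, r.out (jn A B) x = some z ∧ Wit (V c) (p c) z (jn A B)) →
      ∃ (z : List Bool) (Q : Finset (List Bool)), Q.card ≤ q n ∧ z.length ≤ q n ∧
        ∀ A' : Oracle, (∀ s ∈ Q, A' s = A s) →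
          r.out (jn A' B) x = some z ∧ Wit (V c) (p c) z (jn A' B) := by
  obtain ⟨q0, h0⟩ := touch (V false) (p false) r
  obtain ⟨q1, h1⟩ := touch (V true) (p true) r
  obtain ⟨C, d, hCd⟩ := poly_le (q0 + q1)
  obtain ⟨D, hD⟩ : ∃ D, D = d + 4 := ⟨_, rfl⟩
  have hDpos : 0 < D := by omega
  have hkn : ∀ n, n < D * 2 ^ (n / D) := by
    intro n
    have e1 : n < D * (n / D + 1) := Nat.lt_mul_div_succ n hDpos
    have e2 : n / D + 1 ≤ 2 ^ (n / D) := Nat.lt_two_pow_self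
    exact e1.trans_le (Nat.mul_le_mul_left _ e2)
  refine ⟨D, fun n => C * ((8 * D + 6) * 2 ^ (n / D)) ^ d, fun n => 11 * (2 ^ (n / D) + 1 + n),
    hDpos, ?_, ?_⟩
  · intro δ hδ
    obtain ⟨c1, hc1⟩ : ∃ c1, c1 = 11 * (D + 2) := ⟨_, rfl⟩
    obtain ⟨c2, hc2⟩ : ∃ c2, c2 = C * (8 * D + 6) ^ d + 1 := ⟨_, rfl⟩
    obtain ⟨k₀, hk₀⟩ := exists_nat_gt (max (((c1 : ℝ) ^ 2 * (c2 : ℝ) + 1) / δ) (16 * (c2 : ℝ)) : ℝ)
    refine ⟨D * k₀, fun n hn => ?_⟩
    obtain ⟨k, hk⟩ : ∃ k, k = n / D := ⟨_, rfl⟩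
    have hk1 : k₀ ≤ k := by
      rw [hk]
      exact (Nat.le_div_iff_mul_le hDpos).2 (by rw [mul_comm]; exact hn)
    have hkn' := hkn n
    rw [← hk] at hkn'
    simp only [← hk]
    have hpk : 1 ≤ 2 ^ k := Nat.one_le_two_pow
    have ht : 11 * (2 ^ k + 1 + n) ≤ c1 * 2 ^ k := by
      rw [hc1]
      nlinarith
    have hq : C * ((8 * D + 6) * 2 ^ k) ^ d + 1 ≤ c2 * (2 ^ k) ^ d := by
      rw [hc2, mul_pow, add_mul, one_mul, mul_assoc]
      have : 1 ≤ (2 ^ k) ^ d := Nat.one_le_pow _ _ hpk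
      omega
    have hnk : (2 ^ k) ^ (d + 4) ≤ 2 ^ n := by
      rw [← pow_mul, ← hD, hk]
      exact Nat.pow_le_pow_right (by norm_num) (Nat.div_mul_le_self n D)
    -- real versions
    obtain ⟨y, hy⟩ : ∃ y : ℝ, y = 2 ^ k := ⟨_, rfl⟩
    have hy1 : (1 : ℝ) ≤ y := by rw [hy]; exact_mod_cast hpk
    have hyk : (k₀ : ℝ) ≤ y := by
      rw [hy]
      have : k₀ ≤ 2 ^ k := hk1.trans Nat.lt_two_pow_self.le
      exact_mod_cast this
    have hy0 : 0 < y := by linarith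
    have htR : ((11 * (2 ^ k + 1 + n) : ℕ) : ℝ) ≤ c1 * y := by
      rw [hy]; exact_mod_cast ht
    have hqR : ((C * ((8 * D + 6) * 2 ^ k) ^ d + 1 : ℕ) : ℝ) ≤ c2 * y ^ d := by
      rw [hy]; exact_mod_cast hq
    have hnR : y ^ (d + 4) ≤ (2 : ℝ) ^ n := by
      rw [hy]; exact_mod_cast hnk
    have hn0 : (0 : ℝ) < 2 ^ n := by positivity
    have hyd : (0 : ℝ) < y ^ d := by positivity
    have hb1 : ((c1 : ℝ) ^ 2 * c2 + 1) / δ < y := ((le_max_left _ _).trans_lt hk₀).trans_le hyk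
    have hb2 : (16 * c2 : ℝ) < y := ((le_max_right _ _).trans_lt hk₀).trans_le hyk
    -- the number of questions
    have hq2 : 2 * (((C * ((8 * D + 6) * 2 ^ k) ^ d : ℕ) : ℝ) / 2 ^ n) ≤ 1 / 8 := by
      rw [← mul_div_assoc, div_le_iff₀ hn0]
      have e1 : ((C * ((8 * D + 6) * 2 ^ k) ^ d : ℕ) : ℝ) ≤ c2 * y ^ d := by
        refine le_trans ?_ hqR
        push_cast
        linarith
      have e2 : y ^ (d + 4) = y ^ d * y ^ 4 := pow_add _ _ _
      have e3 : y ≤ y ^ 4 := le_self_pow₀ hy1 (by norm_num)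
      have e4 : (16 * c2 : ℝ) * y ^ d ≤ y ^ (d + 4) := by
        rw [e2]
        nlinarith
      linarith
    refine ⟨?_, hq2, ?_⟩
    · have e1 : ((C * ((8 * D + 6) * 2 ^ k) ^ d : ℕ) : ℝ) ≤ 2 ^ n := by
        rw [← mul_div_assoc, div_le_iff₀ hn0] at hq2
        linarith
      exact_mod_cast e1
    · have e1 : ((11 * (2 ^ k + 1 + n) : ℕ) : ℝ) ^ 2 *
          (2 * ((C * ((8 * D + 6) * 2 ^ k) ^ d + 1 : ℕ) : ℝ) * cK n) ≤
          (c1 : ℝ) ^ 2 * c2 / y := by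
        unfold cK
        have f1 : ((11 * (2 ^ k + 1 + n) : ℕ) : ℝ) ^ 2 ≤ (c1 * y) ^ 2 :=
          pow_le_pow_left₀ (Nat.cast_nonneg _) htR 2
        have f2 : ((11 * (2 ^ k + 1 + n) : ℕ) : ℝ) ^ 2 *
            ((C * ((8 * D + 6) * 2 ^ k) ^ d + 1 : ℕ) : ℝ) ≤ (c1 * y) ^ 2 * (c2 * y ^ d) :=
          mul_le_mul f1 hqR (Nat.cast_nonneg _) (by positivity)
        have f3 : ((11 * (2 ^ k + 1 + n) : ℕ) : ℝ) ^ 2 *
            (2 * ((C * ((8 * D + 6) * 2 ^ k) ^ d + 1 : ℕ) : ℝ) * (1 / (2 * 2 ^ n))) =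
            (((11 * (2 ^ k + 1 + n) : ℕ) : ℝ) ^ 2 *
            ((C * ((8 * D + 6) * 2 ^ k) ^ d + 1 : ℕ) : ℝ)) / 2 ^ n := by
          field_simp
        rw [f3, div_le_div_iff₀ hn0 hy0]
        have f4 : (c1 * y) ^ 2 * (c2 * y ^ d) * y ≤ (c1 : ℝ) ^ 2 * c2 * 2 ^ n := by
          have f5 : (c1 * y) ^ 2 * (c2 * y ^ d) * y = (c1 : ℝ) ^ 2 * c2 * (y ^ (d + 3)) := by
            rw [pow_add]; ring
          rw [f5]
          refine mul_le_mul_of_nonneg_left ?_ (by positivity)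
          exact (pow_le_pow_right₀ hy1 (by omega)).trans hnR
        nlinarith
      have e2 : (2 : ℝ) ^ (2 ^ k + 1) * (15 / 16) ^ (11 * (2 ^ k + 1 + n)) ≤ 1 / y := by
        have f1 : ((15 : ℝ) / 16) ^ (11 * (2 ^ k + 1 + n)) ≤ (1 / 2) ^ (2 ^ k + 1 + n) := by
          rw [pow_mul]
          refine pow_le_pow_left₀ (by positivity) ?_ _
          norm_num
        have f2 : (2 : ℝ) ^ (2 ^ k + 1) * (1 / 2) ^ (2 ^ k + 1 + n) = (1 / 2) ^ n := by
          rw [pow_add (1 / 2 : ℝ) (2 ^ k + 1) n, ← mul_assoc, ← mul_pow]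
          norm_num
        have f3 : ((1 : ℝ) / 2) ^ n ≤ 1 / y := by
          rw [one_div_pow]
          refine one_div_le_one_div_of_le hy0 ?_
          refine le_trans ?_ hnR
          exact le_self_pow₀ hy1 (by omega)
        refine le_trans (mul_le_mul_of_nonneg_left f1 (by positivity)) ?_
        rw [f2]
        exact f3
      refine (add_le_add e1 e2).trans ?_
      rw [← add_div, div_le_iff₀ hy0]
      rw [div_lt_iff₀ hδ] at hb1
      linarith
  · intro B n j hj c A x hx h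
    have h2 : x.length ≤ (8 * D + 6) * 2 ^ (n / D) := by
      refine hx.trans ?_
      have := hkn n
      have h3 : 1 ≤ 2 ^ (n / D) := Nat.one_le_two_pow
      unfold nb
      nlinarith
    have h3 : 1 ≤ (8 * D + 6) * 2 ^ (n / D) :=
      Nat.mul_pos (by omega) (by positivity)
    have e0 := eval_mono q0 h2
    have e1 := eval_mono q1 h2
    have e2 := hCd _ h3
    rw [Polynomial.eval_add] at e2
    cases c
    · obtain ⟨z, Q, a1, a2, a3⟩ := h0 B A x h
      exact ⟨z, Q, by simp only; omega, by simp only; omega, a3⟩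
    · obtain ⟨z, Q, a1, a2, a3⟩ := h1 B A x h
      exact ⟨z, Q, by simp only; omega, by simp only; omega, a3⟩

section

variable (B : Oracle) (V : Bool → Alg) (p : Bool → Polynomial ℕ) (b : Polynomial ℕ) (t : ℕ)
  (L : List (List Bool))

/-- the exponent for the length of the advice -/
noncomputable def Dr (r : Alg) : ℕ := (exists_q' V p r).choose

theorem Dr_spec (r : Alg) : ∃ (q t : ℕ → ℕ), 0 < Dr V p r ∧ (∀ δ : ℝ, 0 < δ → ∃ N₀, ∀ n ≥ N₀,
      q n ≤ 2 ^ n ∧ 2 * ((q n : ℝ) / 2 ^ n) ≤ 1 / 8 ∧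
      (t n : ℝ) ^ 2 * (2 * ((q n + 1 : ℕ) : ℝ) * cK n) +
        2 ^ (2 ^ (n / Dr V p r) + 1) * (15 / 16) ^ (t n) ≤ δ) ∧
    ∀ (B : Oracle) (n j : ℕ), j ≤ n → ∀ (c : Bool) (A : Oracle) (x : List Bool),
      x.length ≤ 2 * (n + 1 + nb n j) + 1 + 2 ^ (n / Dr V p r) →
      (∃ z, r.out (jn A B) x = some z ∧ Wit (V c) (p c) z (jn A B)) →
      ∃ (z : List Bool) (Q : Finset (List Bool)), Q.card ≤ q n ∧ z.length ≤ q n ∧
        ∀ A' : Oracle, (∀ s ∈ Q, A' s = A s) →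
          r.out (jn A' B) x = some z ∧ Wit (V c) (p c) z (jn A' B) :=
  (exists_q' V p r).choose_spec

/-- the reduction `r` works at all blocks from `k₀` on, with short advice -/
def GA (r : Alg) (k₀ : ℕ) : Set Oracle :=
  {A | ∀ k ≥ k₀, A ∈ GoodA B V p r (Tt b t k) (lv B V p b t L k) (2 ^ (Tt b t k / Dr V p r))}

theorem measurableSet_GoodA (r : Alg) (n j S : ℕ) : MeasurableSet (GoodA B V p r n j S) := by
  obtain ⟨N, hN⟩ := loc_RR B V p r n j S
  refine measurableSet_of_loc (finite_le (N + (n + nb n j + 4))) ?_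
  intro A A' h
  unfold GoodA
  simp only [Set.mem_ofPred_eq]
  refine exists_congr fun a => and_congr_right fun ha => forall_congr' fun c =>
    forall₂_congr fun w hw => ?_
  have e1 : vl (nb n j) (c.toNat, w) A = vl (nb n j) (c.toNat, w) A' := by
    rw [vl_eq_iff]
    intro i hi
    apply h
    simp only [Set.mem_ofPred_eq]
    rw [length_pos, mem_sn.1 hw]
    have : c.toNat ≤ 1 := Bool.toNat_le c
    omega
  rw [e1, ← vI_bv]
  have h1 := hN _ (Nat.le_add_right N (n + nb n j + 4)) a c (bv (nb n j) (c.toNat, w) A') A A' h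
  simp only [Set.mem_ofPred_eq] at h1
  unfold RR at h1
  constructor
  · intro h2
    exact (h1.1 ⟨ha, h2⟩).2
  · intro h2
    exact (h1.2 ⟨ha, h2⟩).2

theorem measurableSet_GA (r : Alg) (k₀ : ℕ) : MeasurableSet (GA B V p b t L r k₀) := by
  have h : GA B V p b t L r k₀ = ⋂ k ≥ k₀, GoodA B V p r (Tt b t k) (lv B V p b t L k)
      (2 ^ (Tt b t k / Dr V p r)) := by
    ext A
    simp only [GA, Set.mem_ofPred_eq, Set.mem_iInter]
  rw [h]
  exact MeasurableSet.iInter fun k => MeasurableSet.iInter fun _ =>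
    measurableSet_GoodA B V p r _ _ _

/-- a countable family of reductions, one after the other -/
theorem key_fin' {G : ℕ → Set Oracle} (hGm : ∀ i, MeasurableSet (G i))
    (hG : ∀ i, ∃ (r : Alg) (k₀ : ℕ), G i ⊆ GA B V p b t L r k₀) (m : ℕ) :
    ∀ (N : ℕ) (σ : Set Oracle), Loc {x | x.length ≤ N} σ → ∀ δ : ℝ, 0 < δ → ∃ K, ∀ k ≥ K,
      eps (lv B V p b t L k) * (3 / 4 * prob (σ ∩ ⋃ i < m, G i) - δ -
        eps (lv B V p b t L k) * prob σ) ≤
        prob (σ ∩ (Bad (Tt b t k) (lv B V p b t L k) ∩ Err B V p (Tt b t k))) := by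
  induction m with
  | zero =>
    intro N σ hσ δ hδ
    refine ⟨0, fun k _ => ?_⟩
    have h1 : prob (σ ∩ ⋃ i < 0, G i) = 0 := by
      simp [prob]
    rw [h1]
    have h2 := eps_pos (lv B V p b t L k)
    have h3 := prob_nonneg σ
    have h4 := prob_nonneg (σ ∩ (Bad (Tt b t k) (lv B V p b t L k) ∩ Err B V p (Tt b t k)))
    have h5 : 0 ≤ eps (lv B V p b t L k) * prob σ := by positivity
    nlinarith [mul_nonneg h2.le h5, mul_nonneg h2.le hδ.le]
  | succ m ih =>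
    intro N σ hσ δ hδ
    have hσm : MeasurableSet σ := measurableSet_of_loc (finite_le N) hσ
    obtain ⟨N', U, hU, h1, h2⟩ := approx (hσm.inter (hGm m)) (δ := δ / 8) (by positivity)
    have hUm : MeasurableSet U := measurableSet_of_loc (finite_le N') hU
    obtain ⟨r, k₀, hr⟩ := hG m
    obtain ⟨q, tt, -, hq1, hq2⟩ := Dr_spec V p r
    obtain ⟨N₀, hN₀⟩ := hq1 (δ / 8) (by positivity)
    have hs1 : Loc {x | x.length ≤ max N N'} (σ ∩ U) :=
      M2.Loc.inter (loc_mono_le (le_max_left _ _) hσ) (loc_mono_le (le_max_right _ _) hU)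
    have hs2 : Loc {x | x.length ≤ max N N'} (σ \ U) :=
      M2.Loc.inter (loc_mono_le (le_max_left _ _) hσ)
        (M2.Loc.compl (loc_mono_le (le_max_right _ _) hU))
    obtain ⟨K, hK⟩ := ih (max N N') (σ \ U) hs2 (δ / 8) (by positivity)
    refine ⟨max K (max (max N N') (max N₀ k₀)), fun k hk => ?_⟩
    have hk1 : K ≤ k := (le_max_left _ _).trans hk
    have hk2 : max N N' ≤ k := (le_max_left _ _).trans ((le_max_right _ _).trans hk)
    have hk3 : N₀ ≤ k := (le_max_left _ _).trans ((le_max_right _ _).trans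
      ((le_max_right _ _).trans hk))
    have hk4 : k₀ ≤ k := (le_max_right _ _).trans ((le_max_right _ _).trans
      ((le_max_right _ _).trans hk))
    set n := Tt b t k with hn
    set j := lv B V p b t L k with hj
    have hkn : k ≤ n := le_Tt b t k
    have hjn : j ≤ n := lv_le_Tt B V p b t L k
    have e1 := hK k hk1
    obtain ⟨e2, e2', e3⟩ := hN₀ n (hk3.trans hkn)
    have e4 := key' B V p r e2 e2' (hq2 B n j hjn) (tt n) (loc_mono_le (hk2.trans hkn) hs1)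
    have hGAm : MeasurableSet (GoodA B V p r n j (2 ^ (n / Dr V p r))) :=
      measurableSet_GoodA B V p r _ _ _
    have e5 : prob (σ ∩ U) ≤ prob ((σ ∩ U) ∩ GoodA B V p r n j (2 ^ (n / Dr V p r))) + δ / 8 := by
      have a1 := prob_inter_add_sdiff (σ ∩ U) hGAm
      have a2 : prob ((σ ∩ U) \ GoodA B V p r n j (2 ^ (n / Dr V p r))) ≤ δ / 8 := by
        refine le_trans (prob_mono ?_) h2
        rintro A ⟨⟨a1, a2⟩, a3⟩
        refine ⟨a2, fun a4 => a3 ?_⟩
        exact hr a4.2 k hk4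
      linarith
    have e6 : prob (σ ∩ ⋃ i < m + 1, G i) ≤ prob (σ ∩ U) + prob ((σ \ U) ∩ ⋃ i < m, G i) +
        δ / 8 := by
      have a1 : σ ∩ ⋃ i < m + 1, G i ⊆ ((σ ∩ U) ∪ ((σ \ U) ∩ ⋃ i < m, G i)) ∪
          ((σ ∩ G m) \ U) := by
        rintro A ⟨a2, a3⟩
        by_cases hA : A ∈ U
        · exact Or.inl (Or.inl ⟨a2, hA⟩)
        · simp only [Set.mem_iUnion, exists_prop] at a3
          obtain ⟨i, hi, a4⟩ := a3
          rcases Nat.lt_succ_iff_lt_or_eq.1 hi with h | h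
          · refine Or.inl (Or.inr ⟨⟨a2, hA⟩, ?_⟩)
            simp only [Set.mem_iUnion, exists_prop]
            exact ⟨i, h, a4⟩
          · subst h
            exact Or.inr ⟨⟨a2, a4⟩, hA⟩
      refine (prob_mono a1).trans ((prob_union_le _ _).trans ?_)
      have a2 := prob_union_le (σ ∩ U) ((σ \ U) ∩ ⋃ i < m, G i)
      linarith
    have e7 : prob ((σ ∩ U) ∩ (Bad n j ∩ Err B V p n)) +
        prob ((σ \ U) ∩ (Bad n j ∩ Err B V p n)) = prob (σ ∩ (Bad n j ∩ Err B V p n)) := by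
      have a1 := prob_inter_add_sdiff (σ ∩ (Bad n j ∩ Err B V p n)) hUm
      have a2 : (σ ∩ U) ∩ (Bad n j ∩ Err B V p n) = (σ ∩ (Bad n j ∩ Err B V p n)) ∩ U := by
        ext A; simp only [Set.mem_inter_iff]; tauto
      have a3 : (σ \ U) ∩ (Bad n j ∩ Err B V p n) = (σ ∩ (Bad n j ∩ Err B V p n)) \ U := by
        ext A; simp only [Set.mem_inter_iff, Set.mem_sdiff]; tauto
      rw [a2, a3]
      exact a1
    have e8 : prob (σ ∩ U) + prob (σ \ U) = prob σ := prob_inter_add_sdiff σ hUm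
    have e9 := eps_pos j
    rw [← e7, ← e8]
    have e10 : eps j * (3 / 4 * (prob (σ ∩ U) - δ / 8 - δ / 8) - eps j * prob (σ ∩ U)) ≤
        prob ((σ ∩ U) ∩ (Bad n j ∩ Err B V p n)) := by
      refine le_trans (mul_le_mul_of_nonneg_left ?_ e9.le) e4
      linarith
    have e11 : eps j * (3 / 4 * prob (σ ∩ ⋃ i < m + 1, G i) - δ -
        eps j * (prob (σ ∩ U) + prob (σ \ U))) ≤
        eps j * (3 / 4 * (prob (σ ∩ U) - δ / 8 - δ / 8) - eps j * prob (σ ∩ U)) +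
        eps j * (3 / 4 * prob ((σ \ U) ∩ ⋃ i < m, G i) - δ / 8 - eps j * prob (σ \ U)) := by
      rw [← mul_add]
      refine mul_le_mul_of_nonneg_left ?_ e9.le
      linarith
    linarith

/-- almost all checks fail -/
theorem ck_fail' {G : ℕ → Set Oracle} (hGm : ∀ i, MeasurableSet (G i))
    (hG : ∀ i, ∃ (r : Alg) (k₀ : ℕ), G i ⊆ GA B V p b t L r k₀)
    (h : 7 / 8 * prob (cyl t L) ≤ prob (cyl t L ∩ ⋃ i, G i)) :
    ∃ K, ∀ k ≥ K, ck B V p b t L k = false := by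
  have hc := prob_cyl_pos t L
  -- finitely many reductions are enough
  obtain ⟨m, hm⟩ : ∃ m, 3 / 4 * prob (cyl t L) ≤ prob (cyl t L ∩ ⋃ i < m, G i) := by
    have h1 : Tendsto (fun m : ℕ => prob (cyl t L ∩ ⋃ i < m, G i)) atTop
        (nhds (prob (⋃ m : ℕ, cyl t L ∩ ⋃ i < m, G i))) := by
      have h0 : Monotone (fun m : ℕ => cyl t L ∩ ⋃ i < m, G i) := by
        intro m m' hmm'
        apply Set.inter_subset_inter_right
        exact Set.iUnion_mono fun i => Set.iUnion_mono' fun hi => ⟨lt_of_lt_of_le hi hmm', le_rfl⟩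
      exact (ENNReal.tendsto_toReal (measure_ne_top _ _)).comp
        (tendsto_measure_iUnion_atTop (μ := randomOracle) h0)
    have h2 : (⋃ m : ℕ, cyl t L ∩ ⋃ i < m, G i) = cyl t L ∩ ⋃ i, G i := by
      rw [← Set.inter_iUnion]
      congr 1
      ext A
      simp only [Set.mem_iUnion, exists_prop]
      constructor
      · rintro ⟨m, i, _, h⟩
        exact ⟨i, h⟩
      · rintro ⟨i, h⟩
        exact ⟨i + 1, i, Nat.lt_succ_self i, h⟩
    rw [h2] at h1
    have h3 : 3 / 4 * prob (cyl t L) < prob (cyl t L ∩ ⋃ i, G i) := by linarith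
    obtain ⟨m, hm⟩ := (h1.eventually (lt_mem_nhds h3)).exists
    exact ⟨m, hm.le⟩
  obtain ⟨K, hK⟩ := key_fin' B V p b t L hGm hG m t (cyl t L) (loc_cyl t L)
    (prob (cyl t L) / 8) (by positivity)
  refine ⟨K, fun k hk => ?_⟩
  have h1 := hK k hk
  have h2 := eps_lv_le B V p b t L k
  have h3 := eps_pos (lv B V p b t L k)
  have h4 : prob (cyl t L ∩ Bad (Tt b t k) (lv B V p b t L k)) ≤
      eps (lv B V p b t L k) * prob (cyl t L) :=
    prob_tau_Bad_le (loc_cyl_T b t L k)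
  unfold ck chk
  rw [decide_eq_false_iff_not, not_lt]
  change prob (cyl t L ∩ Bad (Tt b t k) (lv B V p b t L k)) ≤
    4 * prob (cyl t L ∩ (Bad (Tt b t k) (lv B V p b t L k) ∩ Err B V p (Tt b t k)))
  set e := eps (lv B V p b t L k) with he
  set c := prob (cyl t L) with hc'
  have h5 : e * (c / 4) ≤ e * (3 / 4 * prob (cyl t L ∩ ⋃ i < m, G i) - c / 8 - e * c) := by
    apply mul_le_mul_of_nonneg_left _ h3.le
    nlinarith [mul_le_mul_of_nonneg_right h2 hc.le]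
  linarith

end

end Pool.Agent.H96R.DP2
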