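import Pool.Agent.H96R.DP2.Ex
import Pool.Agent.H96R.DP.Dens

/-!
# The core inequality for reductions with advice

If, for most oracles, some advice makes a reduction work at all instances of a block, then a planted
collision probably gives an error. The advice is handled by resampling many values.
-/

set_option autoImplicit false

namespace Pool.Agent.H96R.DP2

open MeasureTheory Pool.Agent.NPC Pool.Agent.H628R3.RO Pool.Agent.H96R.DP

/-- the indicator of a statement -/
noncomputable def ind (p : Prop) : ℝ := open Classical in if p then 1 else 0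

theorem ind_true {p : Prop} (h : p) : ind p = 1 := by unfold ind; rw [if_pos h]

theorem ind_false {p : Prop} (h : ¬ p) : ind p = 0 := by unfold ind; rw [if_neg h]

theorem ind_nonneg (p : Prop) : 0 ≤ ind p := by
  by_cases h : p
  · rw [ind_true h]; norm_num
  · rw [ind_false h]

theorem ind_le_one (p : Prop) : ind p ≤ 1 := by
  by_cases h : p
  · rw [ind_true h]
  · rw [ind_false h]; norm_num

theorem ind_mono {p p' : Prop} (h : p → p') : ind p ≤ ind p' := by
  by_cases hp : p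
  · rw [ind_true hp, ind_true (h hp)]
  · rw [ind_false hp]; exact ind_nonneg _

theorem ind_congr {p p' : Prop} (h : p ↔ p') : ind p = ind p' := by
  by_cases hp : p
  · rw [ind_true hp, ind_true (h.1 hp)]
  · rw [ind_false hp, ind_false (fun h' => hp (h.2 h'))]

theorem ind_and (p p' : Prop) : ind (p ∧ p') = ind p * ind p' := by
  by_cases hp : p
  · by_cases hp' : p'
    · rw [ind_true hp, ind_true hp', ind_true ⟨hp, hp'⟩, one_mul]
    · rw [ind_false hp', ind_false (fun h => hp' h.2), mul_zero]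
  · rw [ind_false hp, ind_false (fun h => hp h.1), zero_mul]

theorem ind_forall {δ : Type} (l : List δ) (f : δ → Prop) :
    ind (∀ d ∈ l, f d) = (l.map fun d => ind (f d)).prod := by
  induction l with
  | nil => simp [ind]
  | cons d l ih =>
    rw [List.map_cons, List.prod_cons, ← ih, ← ind_and]
    exact ind_congr List.forall_mem_cons

theorem sum_ind_le_card {ι : Type} (s : Finset ι) (f : ι → Prop) (T : Finset ι)
    (h : ∀ i ∈ s, f i → i ∈ T) : ∑ i ∈ s, ind (f i) ≤ T.card := by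
  classical
  have h1 : ∑ i ∈ s, ind (f i) ≤ ∑ i ∈ s.filter f, (1 : ℝ) := by
    rw [Finset.sum_filter]
    refine Finset.sum_le_sum fun i _ => ?_
    unfold ind
    split_ifs <;> simp
  refine h1.trans ?_
  rw [Finset.sum_const, nsmul_eq_mul, mul_one]
  have h2 : (s.filter f).card ≤ T.card :=
    Finset.card_le_card fun i hi => h i (Finset.mem_filter.1 hi).1 (Finset.mem_filter.1 hi).2
  exact_mod_cast h2

/-! ### finite oracles -/

/-- the finite oracles with strings of length at most `N` -/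
def FN (N : ℕ) : Finset (List (List Bool)) := (strs N).sublists.toFinset

/-- their weight -/
noncomputable def mu (N : ℕ) : ℝ := (1 / 2) ^ (strs N).length

theorem mu_pos (N : ℕ) : 0 < mu N := by unfold mu; positivity

theorem prob_fin {N : ℕ} {S : Set Oracle} (hS : Loc {x | x.length ≤ N} S) :
    prob S = ∑ L ∈ FN N, mu N * ind (ofL L ∈ S) := by
  rw [prob_sum_cyl N (measurableSet_of_loc (finite_le N) hS)]
  refine Finset.sum_congr rfl fun L _ => ?_
  have h0 : prob (cyl N L) = mu N := by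
    rw [cyl_eq, prob_agree _ (nodup_strs N)]
    rfl
  by_cases h : ofL L ∈ S
  · have h1 : cyl N L ∩ S = cyl N L := by
      apply Set.inter_eq_left.2
      intro A hA
      exact (hS A (ofL L) fun x hx => hA x hx).2 h
    rw [h1, h0, ind_true h, mul_one]
  · have h1 : cyl N L ∩ S = ∅ := by
      rw [Set.eq_empty_iff_forall_notMem]
      rintro A ⟨hA, hA'⟩
      exact h ((hS A (ofL L) fun x hx => hA x hx).1 hA')
    rw [h1, ind_false h]
    simp [prob]

/-! ### the setting -/

/-- the side of a candidate -/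
def sd (κ : Cand) : Bool := decide (κ.1 = 1)

/-- the value of a candidate, as a set of bits -/
def bv (m : ℕ) (κ : Cand) (A : Oracle) : Finset ℕ :=
  (Finset.range m).filter fun i => A (pos κ.1 i κ.2) = true

theorem bv_subset (m : ℕ) (κ : Cand) (A : Oracle) : bv m κ A ⊆ Finset.range m :=
  Finset.filter_subset _ _

theorem vI_bv (m : ℕ) (κ : Cand) (A : Oracle) : vI m (bv m κ A) = vl m κ A := by
  unfold vI vl
  apply List.map_congr_left
  intro i hi
  unfold bv
  rw [List.mem_range] at hi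
  simp only [Finset.mem_filter, Finset.mem_range, hi, true_and]
  cases A (pos κ.1 i κ.2) <;> rfl

theorem bv_pl {m : ℕ} {κ : Cand} {I : Finset ℕ} (hI : I ⊆ Finset.range m) (A : Oracle) :
    bv m κ (pl m κ I A) = I := by
  ext i
  unfold bv
  rw [Finset.mem_filter, Finset.mem_range]
  constructor
  · rintro ⟨hi, h⟩
    rw [pl_pos hi, decide_eq_true_eq] at h
    exact h
  · intro h
    have hi := Finset.mem_range.1 (hI h)
    exact ⟨hi, by rw [pl_pos hi, decide_eq_true_eq]; exact h⟩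

theorem bv_congr {m : ℕ} {κ : Cand} {A A' : Oracle} (h : ∀ s ∈ spots m κ, A s = A' s) :
    bv m κ A = bv m κ A' := by
  unfold bv
  apply Finset.filter_congr
  intro i hi
  rw [h _ (M2.mem_spots.2 ⟨i, Finset.mem_range.1 hi, rfl⟩)]

/-- the properties used in the core inequality: `R a b I A` means that the reduction with advice `a`
maps the instance with the value `I` to a string with a witness for side `b`; `T a b I A` contains
the candidates touched -/
structure Core (n m N q : ℕ) (α : Type) (R : α → Bool → Finset ℕ → Oracle → Prop)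
    (T : α → Bool → Finset ℕ → Oracle → Finset Cand) (E : Set Oracle) : Prop where
  hN : n + m + 4 ≤ N
  locR : ∀ a b I, Loc {x | x.length ≤ N} {A | R a b I A}
  locT : ∀ a b I (A A' : Oracle), (∀ x : List Bool, x.length ≤ N → A x = A' x) →
    T a b I A = T a b I A'
  locE : Loc {x | x.length ≤ N} E
  cardT : ∀ a b I A, (T a b I A).card ≤ q
  stab : ∀ a b I (A A' : Oracle), R a b I A → (∀ κ ∈ T a b I A, ∀ s ∈ spots m κ, A' s = A s) →
    (∀ s, (∀ κ ∈ cn n, s ∉ spots m κ) → A' s = A s) → R a b I A'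
  err : ∀ a I A, R a false I A → R a true I A → A ∈ E

section

variable {n m N q : ℕ} {α : Type} {R : α → Bool → Finset ℕ → Oracle → Prop}
  {T : α → Bool → Finset ℕ → Oracle → Finset Cand} {E : Set Oracle}

theorem pl_agree {N : ℕ} (m : ℕ) (κ : Cand) (I : Finset ℕ) {A A' : Oracle}
    (h : ∀ x : List Bool, x.length ≤ N → A x = A' x) :
    ∀ x : List Bool, x.length ≤ N → pl m κ I A x = pl m κ I A' x := by
  intro x hx
  unfold pl
  split_ifs
  · rfl
  · exact h x hx

/-- the planted collision -/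
def pp (m : ℕ) (w₀ w₁ : List Bool) (I : Finset ℕ) (A : Oracle) : Oracle :=
  pl m (1, w₁) I (pl m (0, w₀) I A)

theorem ne01 (w₀ w₁ : List Bool) : ((0, w₀) : Cand) ≠ (1, w₁) := by
  intro h
  have := congrArg Prod.fst h
  norm_num at this

theorem pp_eq (m : ℕ) (w₀ w₁ : List Bool) (I : Finset ℕ) (A : Oracle) :
    pp m w₀ w₁ I A = pl m (0, w₀) I (pl m (1, w₁) I A) := (pl_comm (ne01 w₀ w₁) I I A).symm

/-- the probability of an error after planting a collision -/
noncomputable def phi (n m : ℕ) (E : Set Oracle) (A : Oracle) : ℝ :=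
  ∑ w₀ ∈ sn n, ∑ w₁ ∈ sn n, ∑ I ∈ (Finset.range m).powerset,
    (1 / 4) ^ n * ((1 / 2) ^ m * ind (pp m w₀ w₁ I A ∈ E))

/-- the success of the advice `a` after planting the value `d.2` at `d.1` -/
def gg (R : α → Bool → Finset ℕ → Oracle → Prop) (m : ℕ) (a : α) (d : Cand × Finset ℕ)
    (A : Oracle) : Prop := R a (sd d.1) d.2 (pl m d.1 d.2 A)

theorem sum_cn (n : ℕ) (f : Cand → ℝ) :
    ∑ κ ∈ cn n, f κ = ∑ w ∈ sn n, f (0, w) + ∑ w ∈ sn n, f (1, w) := by
  have h : cn n = Finset.range 2 ×ˢ sn n := rfl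
  rw [h, Finset.sum_product, Finset.sum_range_succ, Finset.sum_range_one]

variable (hC : Core n m N q α R T E)

include hC

theorem gg_gg (a : α) (I : Finset ℕ) {w₀ w₁ : List Bool} (hw₀ : w₀ ∈ sn n) (hw₁ : w₁ ∈ sn n)
    (A : Oracle) : ind (gg R m a ((0, w₀), I) A) * ind (gg R m a ((1, w₁), I) A) ≤
      ind (pp m w₀ w₁ I A ∈ E) + ind (((1, w₁) : Cand) ∈ T a false I (pl m (0, w₀) I A)) +
        ind (((0, w₀) : Cand) ∈ T a true I (pl m (1, w₁) I A)) := by
  by_cases h0 : gg R m a ((0, w₀), I) A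
  · by_cases h1 : gg R m a ((1, w₁), I) A
    · by_cases c1 : ((1, w₁) : Cand) ∈ T a false I (pl m (0, w₀) I A)
      · rw [ind_true c1, ind_true h0, ind_true h1]
        have := ind_nonneg (pp m w₀ w₁ I A ∈ E)
        have := ind_nonneg (((0, w₀) : Cand) ∈ T a true I (pl m (1, w₁) I A))
        linarith
      · by_cases c2 : ((0, w₀) : Cand) ∈ T a true I (pl m (1, w₁) I A)
        · rw [ind_true c2, ind_true h0, ind_true h1]
          have := ind_nonneg (pp m w₀ w₁ I A ∈ E)
          have := ind_nonneg (((1, w₁) : Cand) ∈ T a false I (pl m (0, w₀) I A))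
          linarith
        · have e0 : R a false I (pp m w₀ w₁ I A) := by
            refine hC.stab a false I _ _ h0 (fun κ hκ s hs => ?_) (fun s hs => ?_)
            · apply pl_off
              intro hs'
              have := M2.spots_disjoint hs hs'
              rw [this] at hκ
              exact c1 hκ
            · exact pl_off (hs _ (mem_cn_one hw₁))
          have e1 : R a true I (pp m w₀ w₁ I A) := by
            rw [pp_eq]
            refine hC.stab a true I _ _ h1 (fun κ hκ s hs => ?_) (fun s hs => ?_)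
            · apply pl_off
              intro hs'
              have := M2.spots_disjoint hs hs'
              rw [this] at hκ
              exact c2 hκ
            · exact pl_off (hs _ (mem_cn_zero hw₀))
          rw [ind_true (hC.err a I _ e0 e1), ind_true h0, ind_true h1]
          have := ind_nonneg (((1, w₁) : Cand) ∈ T a false I (pl m (0, w₀) I A))
          have := ind_nonneg (((0, w₀) : Cand) ∈ T a true I (pl m (1, w₁) I A))
          linarith
    · rw [ind_false h1, mul_zero]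
      have := ind_nonneg (pp m w₀ w₁ I A ∈ E)
      have := ind_nonneg (((1, w₁) : Cand) ∈ T a false I (pl m (0, w₀) I A))
      have := ind_nonneg (((0, w₀) : Cand) ∈ T a true I (pl m (1, w₁) I A))
      linarith
  · rw [ind_false h0, zero_mul]
    have := ind_nonneg (pp m w₀ w₁ I A ∈ E)
    have := ind_nonneg (((1, w₁) : Cand) ∈ T a false I (pl m (0, w₀) I A))
    have := ind_nonneg (((0, w₀) : Cand) ∈ T a true I (pl m (1, w₁) I A))
    linarith

/-- the bound for one value -/
theorem one_value (a : α) (I : Finset ℕ) (A : Oracle) :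
    ∑ w ∈ sn n, ind (gg R m a ((0, w), I) A) + ∑ w ∈ sn n, ind (gg R m a ((1, w), I) A) ≤
      2 ^ n + (1 / 2) ^ n * (∑ w₀ ∈ sn n, ∑ w₁ ∈ sn n, ind (pp m w₀ w₁ I A ∈ E)) + 2 * q := by
  classical
  set x := ∑ w ∈ sn n, ind (gg R m a ((0, w), I) A) with hx
  set y := ∑ w ∈ sn n, ind (gg R m a ((1, w), I) A) with hy
  have hcard : ((sn n).card : ℝ) = 2 ^ n := by rw [card_sn]; push_cast; rfl
  have hx1 : x ≤ 2 ^ n := by
    rw [← hcard, ← nsmul_one, ← Finset.sum_const]
    exact Finset.sum_le_sum fun w _ => ind_le_one _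
  have hy1 : y ≤ 2 ^ n := by
    rw [← hcard, ← nsmul_one, ← Finset.sum_const]
    exact Finset.sum_le_sum fun w _ => ind_le_one _
  have hxy : x * y ≤ (∑ w₀ ∈ sn n, ∑ w₁ ∈ sn n, ind (pp m w₀ w₁ I A ∈ E)) + 2 ^ n * q +
      2 ^ n * q := by
    rw [hx, hy, Finset.sum_mul_sum]
    have h1 : ∑ w₀ ∈ sn n, ∑ w₁ ∈ sn n, ind (gg R m a ((0, w₀), I) A) *
        ind (gg R m a ((1, w₁), I) A) ≤ ∑ w₀ ∈ sn n, ∑ w₁ ∈ sn n,
        (ind (pp m w₀ w₁ I A ∈ E) + ind (((1, w₁) : Cand) ∈ T a false I (pl m (0, w₀) I A)) +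
        ind (((0, w₀) : Cand) ∈ T a true I (pl m (1, w₁) I A))) :=
      Finset.sum_le_sum fun w₀ hw₀ => Finset.sum_le_sum fun w₁ hw₁ => gg_gg hC a I hw₀ hw₁ A
    refine h1.trans ?_
    simp only [Finset.sum_add_distrib]
    refine add_le_add (add_le_add le_rfl ?_) ?_
    · have h2 : ∀ w₀ ∈ sn n, ∑ w₁ ∈ sn n,
          ind (((1, w₁) : Cand) ∈ T a false I (pl m (0, w₀) I A)) ≤ (q : ℝ) := by
        intro w₀ _
        have h3 := sum_ind_le_card (sn n)
          (fun w₁ => ((1, w₁) : Cand) ∈ T a false I (pl m (0, w₀) I A))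
          ((T a false I (pl m (0, w₀) I A)).image Prod.snd)
          (fun w₁ _ h => Finset.mem_image.2 ⟨_, h, rfl⟩)
        refine h3.trans ?_
        exact_mod_cast Finset.card_image_le.trans (hC.cardT _ _ _ _)
      refine (Finset.sum_le_sum h2).trans (le_of_eq ?_)
      rw [Finset.sum_const, nsmul_eq_mul, hcard]
    · rw [Finset.sum_comm]
      have h2 : ∀ w₁ ∈ sn n, ∑ w₀ ∈ sn n,
          ind (((0, w₀) : Cand) ∈ T a true I (pl m (1, w₁) I A)) ≤ (q : ℝ) := by
        intro w₁ _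
        have h3 := sum_ind_le_card (sn n)
          (fun w₀ => ((0, w₀) : Cand) ∈ T a true I (pl m (1, w₁) I A))
          ((T a true I (pl m (1, w₁) I A)).image Prod.snd)
          (fun w₁ _ h => Finset.mem_image.2 ⟨_, h, rfl⟩)
        refine h3.trans ?_
        exact_mod_cast Finset.card_image_le.trans (hC.cardT _ _ _ _)
      refine (Finset.sum_le_sum h2).trans (le_of_eq ?_)
      rw [Finset.sum_const, nsmul_eq_mul, hcard]
  have hpos : (0 : ℝ) < 2 ^ n := by positivity
  set W := ∑ w₀ ∈ sn n, ∑ w₁ ∈ sn n, ind (pp m w₀ w₁ I A ∈ E) with hW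
  -- (2 ^ n - x) (2 ^ n - y) ≥ 0
  have h2 : 2 ^ n * (x + y) ≤ 2 ^ n * (2 ^ n + (1 / 2) ^ n * W + 2 * q) := by
    have h3 : 0 ≤ (2 ^ n - x) * (2 ^ n - y) :=
      mul_nonneg (by linarith) (by linarith)
    have h4 : (2 : ℝ) ^ n * ((1 / 2) ^ n * W) = W := by
      rw [← mul_assoc, ← mul_pow]
      norm_num
    calc 2 ^ n * (x + y) ≤ 2 ^ n * 2 ^ n + x * y := by nlinarith
      _ ≤ 2 ^ n * 2 ^ n + (W + 2 ^ n * q + 2 ^ n * q) := by linarith
      _ = 2 ^ n * (2 ^ n + (1 / 2) ^ n * W + 2 * q) := by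
        rw [mul_add, mul_add, h4]; ring
  exact le_of_mul_le_mul_left h2 hpos

/-- the success probability of one advice -/
theorem rho_le (a : α) (A : Oracle) :
    ∑ d ∈ DD n m, cD n m * ind (gg R m a d A) ≤ 1 / 2 * (1 + phi n m E A + 2 * (q / 2 ^ n)) := by
  have h1 : ∑ d ∈ DD n m, cD n m * ind (gg R m a d A) =
      ∑ I ∈ (Finset.range m).powerset, cD n m *
        (∑ w ∈ sn n, ind (gg R m a ((0, w), I) A) + ∑ w ∈ sn n, ind (gg R m a ((1, w), I) A)) := by
    unfold DD
    rw [Finset.sum_product_right]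
    refine Finset.sum_congr rfl fun I _ => ?_
    rw [sum_cn n (fun κ => cD n m * ind (gg R m a (κ, I) A)), ← Finset.mul_sum, ← Finset.mul_sum,
      ← mul_add]
  rw [h1]
  have h2 : ∀ I ∈ (Finset.range m).powerset, cD n m *
        (∑ w ∈ sn n, ind (gg R m a ((0, w), I) A) + ∑ w ∈ sn n, ind (gg R m a ((1, w), I) A)) ≤
      cD n m * (2 ^ n + (1 / 2) ^ n * (∑ w₀ ∈ sn n, ∑ w₁ ∈ sn n, ind (pp m w₀ w₁ I A ∈ E)) +
        2 * q) :=
    fun I _ => mul_le_mul_of_nonneg_left (one_value hC a I A) (cD_pos n m).le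
  refine (Finset.sum_le_sum h2).trans (le_of_eq ?_)
  have h3 : phi n m E A = ∑ I ∈ (Finset.range m).powerset, (1 / 4) ^ n * ((1 / 2) ^ m *
      ∑ w₀ ∈ sn n, ∑ w₁ ∈ sn n, ind (pp m w₀ w₁ I A ∈ E)) := by
    unfold phi
    have h4 : ∀ w₀ ∈ sn n, ∑ w₁ ∈ sn n, ∑ I ∈ (Finset.range m).powerset,
        (1 / 4 : ℝ) ^ n * ((1 / 2) ^ m * ind (pp m w₀ w₁ I A ∈ E)) =
        ∑ I ∈ (Finset.range m).powerset, ∑ w₁ ∈ sn n,
        (1 / 4 : ℝ) ^ n * ((1 / 2) ^ m * ind (pp m w₀ w₁ I A ∈ E)) :=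
      fun w₀ _ => Finset.sum_comm
    rw [Finset.sum_congr rfl h4, Finset.sum_comm]
    refine Finset.sum_congr rfl fun I _ => ?_
    simp only [Finset.mul_sum]
  rw [h3]
  have h5 : cD n m = 1 / 2 * (1 / 2) ^ n * (1 / 2) ^ m := by
    unfold cD cK
    rw [one_div_pow, one_div_pow]
    field_simp
  have h6 : (1 / 4 : ℝ) ^ n = (1 / 2) ^ n * (1 / 2) ^ n := by
    rw [← mul_pow]; norm_num
  have h7 : (1 / 2 : ℝ) ^ n * 2 ^ n = 1 := by rw [← mul_pow]; norm_num
  have h8 : ∑ I ∈ (Finset.range m).powerset, cD n m * (2 ^ n + (1 / 2) ^ n *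
      (∑ w₀ ∈ sn n, ∑ w₁ ∈ sn n, ind (pp m w₀ w₁ I A ∈ E)) + 2 * q) =
      ∑ I ∈ (Finset.range m).powerset, ((1 / 2) ^ m * (1 / 2 + q / 2 ^ n) +
        1 / 2 * ((1 / 4) ^ n * ((1 / 2) ^ m *
          (∑ w₀ ∈ sn n, ∑ w₁ ∈ sn n, ind (pp m w₀ w₁ I A ∈ E))))) := by
    refine Finset.sum_congr rfl fun I _ => ?_
    have h9 : (q : ℝ) / 2 ^ n = (1 / 2) ^ n * q := by
      rw [one_div_pow]; field_simp
    rw [h5, h6, h9]
    calc 1 / 2 * (1 / 2 : ℝ) ^ n * (1 / 2) ^ m * (2 ^ n + (1 / 2) ^ n *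
        (∑ w₀ ∈ sn n, ∑ w₁ ∈ sn n, ind (pp m w₀ w₁ I A ∈ E)) + 2 * q) =
        (1 / 2) ^ m * (1 / 2 * ((1 / 2 : ℝ) ^ n * 2 ^ n) + (1 / 2) ^ n * q) +
        1 / 2 * ((1 / 2) ^ n * (1 / 2) ^ n * ((1 / 2) ^ m *
          (∑ w₀ ∈ sn n, ∑ w₁ ∈ sn n, ind (pp m w₀ w₁ I A ∈ E)))) := by ring
      _ = _ := by rw [h7, mul_one]
  rw [h8, Finset.sum_add_distrib, ← Finset.sum_mul, half_pow_card, ← Finset.mul_sum]
  ring

end

end Pool.Agent.H96R.DP2
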