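import Pool.Agent.H96R.DP2.Core

/-!
# The core inequality for reductions with advice: the end of the proof
-/

set_option autoImplicit false

namespace Pool.Agent.H96R.DP2

open MeasureTheory Pool.Agent.NPC Pool.Agent.H628R3.RO Pool.Agent.H96R.DP

section

variable {n m N q : ℕ} {α : Type} {R : α → Bool → Finset ℕ → Oracle → Prop}
  {T : α → Bool → Finset ℕ → Oracle → Finset Cand} {E : Set Oracle}

theorem loc_pl {N : ℕ} (m : ℕ) (κ : Cand) (I : Finset ℕ) {S : Set Oracle}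
    (hS : Loc {x | x.length ≤ N} S) : Loc {x | x.length ≤ N} (pl m κ I ⁻¹' S) := by
  intro A A' h
  exact hS _ _ (pl_agree m κ I h)

theorem loc_phi {N : ℕ} (hE : Loc {x | x.length ≤ N} E) (A A' : Oracle)
    (h : ∀ x : List Bool, x.length ≤ N → A x = A' x) : phi n m E A = phi n m E A' := by
  unfold phi
  refine Finset.sum_congr rfl fun w₀ _ => Finset.sum_congr rfl fun w₁ _ =>
    Finset.sum_congr rfl fun I _ => ?_
  have h1 : pp m w₀ w₁ I A ∈ E ↔ pp m w₀ w₁ I A' ∈ E :=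
    hE _ _ (pl_agree m _ I (pl_agree m _ I h))
  rw [ind_congr h1]

theorem phi_nonneg (A : Oracle) : 0 ≤ phi n m E A := by
  unfold phi
  refine Finset.sum_nonneg fun w₀ _ => Finset.sum_nonneg fun w₁ _ =>
    Finset.sum_nonneg fun I _ => ?_
  have := ind_nonneg (pp m w₀ w₁ I A ∈ E)
  positivity

/-- one advice is successful at many random places with small probability -/
theorem Ex_adv (hC : Core n m N q α R T E) (a : α) {τ : Set Oracle}
    (hτ : Loc {x | x.length ≤ N} τ) {r : ℝ} (hr : 0 ≤ r)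
    (h : ∀ A ∈ τ, ∑ d ∈ DD n m, cD n m * ind (gg R m a d A) ≤ r) (t : ℕ) :
    Ex (DD n m) (cD n m) t (fun l => prob {A | A ∈ τ ∧ ∀ d ∈ l, gg R m a d A}) ≤ r ^ t := by
  have h1 : ∀ l : List (Cand × Finset ℕ), prob {A | A ∈ τ ∧ ∀ d ∈ l, gg R m a d A} =
      ∑ L ∈ FN N, (mu N * ind (ofL L ∈ τ)) * (l.map fun d => ind (gg R m a d (ofL L))).prod := by
    intro l
    have hl : Loc {x | x.length ≤ N} {A | A ∈ τ ∧ ∀ d ∈ l, gg R m a d A} := by
      intro A A' hA
      simp only [Set.mem_ofPred_eq]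
      rw [hτ A A' hA]
      refine and_congr_right fun _ => forall₂_congr fun d _ => ?_
      exact loc_pl m d.1 d.2 (hC.locR a (sd d.1) d.2) A A' hA
    rw [prob_fin hl]
    refine Finset.sum_congr rfl fun L _ => ?_
    rw [← ind_forall, mul_assoc, ← ind_and]
    rfl
  have h2 : Ex (DD n m) (cD n m) t (fun l => prob {A | A ∈ τ ∧ ∀ d ∈ l, gg R m a d A}) =
      ∑ L ∈ FN N, (mu N * ind (ofL L ∈ τ)) *
        (∑ d ∈ DD n m, cD n m * ind (gg R m a d (ofL L))) ^ t := by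
    rw [Ex_congr (fun l _ _ => h1 l), Ex_sum]
    refine Finset.sum_congr rfl fun L _ => ?_
    rw [Ex_const_mul, Ex_prod]
  rw [h2]
  have h3 : ∀ L ∈ FN N, (mu N * ind (ofL L ∈ τ)) *
        (∑ d ∈ DD n m, cD n m * ind (gg R m a d (ofL L))) ^ t ≤
      (mu N * ind (ofL L ∈ τ)) * r ^ t := by
    intro L _
    by_cases hL : ofL L ∈ τ
    · rw [ind_true hL, mul_one]
      refine mul_le_mul_of_nonneg_left ?_ (mu_pos N).le
      refine pow_le_pow_left₀ ?_ (h _ hL) t
      refine Finset.sum_nonneg fun d _ => mul_nonneg (cD_pos n m).le (ind_nonneg _)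
    · rw [ind_false hL, mul_zero, zero_mul, zero_mul]
  refine (Finset.sum_le_sum h3).trans ?_
  rw [← Finset.sum_mul, ← prob_fin hτ]
  have h4 : prob τ ≤ 1 := prob_le_one τ
  have h5 : 0 ≤ r ^ t := pow_nonneg hr t
  nlinarith

/-- Markov's inequality for the error probability after planting a collision -/
theorem markov (hC : Core n m N q α R T E) {τ : Set Oracle} (hτ : Loc {x | x.length ≤ n} τ)
    {θ : ℝ} (hθ : 0 ≤ θ) : θ * prob (τ ∩ {A | θ < phi n m E A}) ≤
      (1 / 4) ^ n * ∑ w₀ ∈ sn n, ∑ w₁ ∈ sn n, 2 ^ m *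
        prob ((E ∩ τ) ∩ Same m (0, w₀) (1, w₁)) := by
  have hnN : n ≤ N := by
    have := hC.hN
    omega
  have hτN : Loc {x | x.length ≤ N} τ := loc_mono_le hnN hτ
  have hτm : MeasurableSet τ := measurableSet_of_loc (finite_le _) hτ
  have hEm : MeasurableSet E := measurableSet_of_loc (finite_le _) hC.locE
  have h1 : Loc {x | x.length ≤ N} (τ ∩ {A | θ < phi n m E A}) := by
    intro A A' h
    refine and_congr (hτN A A' h) ?_
    simp only [Set.mem_ofPred_eq]
    rw [loc_phi hC.locE A A' h]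
  rw [prob_fin h1, Finset.mul_sum]
  have h2 : ∀ L ∈ FN N, θ * (mu N * ind (ofL L ∈ τ ∩ {A | θ < phi n m E A})) ≤
      mu N * (ind (ofL L ∈ τ) * phi n m E (ofL L)) := by
    intro L _
    have h3 : θ * ind (ofL L ∈ τ ∩ {A | θ < phi n m E A}) ≤
        ind (ofL L ∈ τ) * phi n m E (ofL L) := by
      by_cases hL : ofL L ∈ τ ∩ {A | θ < phi n m E A}
      · rw [ind_true hL, ind_true hL.1, mul_one, one_mul]
        exact le_of_lt hL.2
      · rw [ind_false hL, mul_zero]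
        exact mul_nonneg (ind_nonneg _) (phi_nonneg _)
    have h4 := mul_le_mul_of_nonneg_left h3 (mu_pos N).le
    calc θ * (mu N * ind (ofL L ∈ τ ∩ {A | θ < phi n m E A})) =
        mu N * (θ * ind (ofL L ∈ τ ∩ {A | θ < phi n m E A})) := by ring
      _ ≤ _ := h4
  refine (Finset.sum_le_sum h2).trans (le_of_eq ?_)
  have h5 : ∀ w₀ ∈ sn n, ∀ w₁ ∈ sn n, (1 / 4 : ℝ) ^ n * (2 ^ m *
      prob ((E ∩ τ) ∩ Same m (0, w₀) (1, w₁))) =
      ∑ I ∈ (Finset.range m).powerset, ∑ L ∈ FN N, (1 / 4) ^ n * ((1 / 2) ^ m *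
        (mu N * (ind (ofL L ∈ τ) * ind (pp m w₀ w₁ I (ofL L) ∈ E)))) := by
    intro w₀ hw₀ w₁ hw₁
    rw [prob_inter_Same (hEm.inter hτm) m (ne01 w₀ w₁), Finset.mul_sum]
    refine Finset.sum_congr rfl fun I _ => ?_
    have h6 : {A | pl m (1, w₁) I (pl m (0, w₀) I A) ∈ E ∩ τ} =
        {A | A ∈ τ ∧ pp m w₀ w₁ I A ∈ E} := by
      ext A
      simp only [Set.mem_ofPred_eq, Set.mem_inter_iff]
      rw [pl_mem_of_loc hτ (mem_cn_one hw₁), pl_mem_of_loc hτ (mem_cn_zero hw₀)]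
      exact and_comm
    have h7 : Loc {x | x.length ≤ N} {A | A ∈ τ ∧ pp m w₀ w₁ I A ∈ E} := by
      intro A A' h
      exact and_congr (hτN A A' h) (hC.locE _ _ (pl_agree m _ I (pl_agree m _ I h)))
    rw [h6, prob_fin h7, Finset.mul_sum, Finset.mul_sum]
    refine Finset.sum_congr rfl fun L _ => ?_
    rw [← ind_and]
    rfl
  have h8 : (1 / 4 : ℝ) ^ n * ∑ w₀ ∈ sn n, ∑ w₁ ∈ sn n, 2 ^ m *
      prob ((E ∩ τ) ∩ Same m (0, w₀) (1, w₁)) =
      ∑ w₀ ∈ sn n, ∑ w₁ ∈ sn n, ∑ I ∈ (Finset.range m).powerset, ∑ L ∈ FN N,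
        (1 / 4) ^ n * ((1 / 2) ^ m *
        (mu N * (ind (ofL L ∈ τ) * ind (pp m w₀ w₁ I (ofL L) ∈ E)))) := by
    rw [Finset.mul_sum]
    refine Finset.sum_congr rfl fun w₀ hw₀ => ?_
    rw [Finset.mul_sum]
    exact Finset.sum_congr rfl fun w₁ hw₁ => h5 w₀ hw₀ w₁ hw₁
  rw [h8]
  have h9 : ∀ w₀ ∈ sn n, ∀ w₁ ∈ sn n, ∑ I ∈ (Finset.range m).powerset, ∑ L ∈ FN N,
        (1 / 4 : ℝ) ^ n * ((1 / 2) ^ m *
        (mu N * (ind (ofL L ∈ τ) * ind (pp m w₀ w₁ I (ofL L) ∈ E)))) =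
      ∑ L ∈ FN N, ∑ I ∈ (Finset.range m).powerset,
        (1 / 4 : ℝ) ^ n * ((1 / 2) ^ m *
        (mu N * (ind (ofL L ∈ τ) * ind (pp m w₀ w₁ I (ofL L) ∈ E)))) :=
    fun w₀ _ w₁ _ => Finset.sum_comm
  rw [Finset.sum_congr rfl fun w₀ hw₀ => Finset.sum_congr rfl fun w₁ hw₁ => h9 w₀ hw₀ w₁ hw₁]
  rw [Finset.sum_congr rfl fun w₀ _ => Finset.sum_comm (s := sn n) (t := FN N), Finset.sum_comm]
  refine Finset.sum_congr rfl fun L _ => ?_
  unfold phi
  simp only [Finset.mul_sum]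
  refine Finset.sum_congr rfl fun w₀ _ => Finset.sum_congr rfl fun w₁ _ =>
    Finset.sum_congr rfl fun I _ => ?_
  ring

/-! ### clashes -/

theorem prob_exists_le {ι : Type} (l : List ι) (f : ι → Set Oracle) :
    prob {A | ∃ i ∈ l, A ∈ f i} ≤ (l.map fun i => prob (f i)).sum := by
  induction l with
  | nil => simp [prob]
  | cons i l ih =>
    rw [List.map_cons, List.sum_cons]
    have h1 : {A : Oracle | ∃ i' ∈ i :: l, A ∈ f i'} ⊆ f i ∪ {A | ∃ i' ∈ l, A ∈ f i'} := by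
      rintro A ⟨i', hi', hA⟩
      rcases List.mem_cons.1 hi' with rfl | h
      · exact Or.inl hA
      · exact Or.inr ⟨i', h, hA⟩
    have h2 := (prob_mono h1).trans (prob_union_le _ _)
    linarith

theorem sum_prob_mem (W : Oracle → Finset Cand) {q' : ℕ} (hW : ∀ A, (W A).card ≤ q')
    (hl : ∀ A A' : Oracle, (∀ x : List Bool, x.length ≤ N → A x = A' x) → W A = W A')
    (s : Finset Cand) : ∑ κ ∈ s, prob {A | κ ∈ W A} ≤ q' := by
  have hm : ∀ κ : Cand, MeasurableSet {A | κ ∈ W A} := by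
    intro κ
    refine measurableSet_of_loc (finite_le N) ?_
    intro A A' h
    simp only [Set.mem_ofPred_eq]
    rw [hl A A' h]
  have h2 := M2.sum_prob_le MeasurableSet.univ s (fun κ => {A | κ ∈ W A}) hm q'
    (fun A _ => ⟨W A, hW A, fun κ _ h => h⟩)
  rw [prob_univ', mul_one] at h2
  simpa only [Set.univ_inter] using h2

/-- the candidates in the list do not touch each other -/
def NC (W : Oracle → Cand → Finset Cand) (A : Oracle) (ks : List Cand) : Prop :=
  ks.Pairwise fun κ κ' => κ' ∉ W A κ ∧ κ ∉ W A κ'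

theorem Ex_clash (W : Oracle → Cand → Finset Cand) {q' : ℕ} (hW : ∀ A κ, (W A κ).card ≤ q')
    (hl : ∀ A A' : Oracle, (∀ x : List Bool, x.length ≤ N → A x = A' x) → W A = W A') (t : ℕ) :
    Ex (cn n) (cK n) t (fun ks => prob {A | ¬ NC W A ks}) ≤ (t : ℝ) ^ 2 * (2 * q' * cK n) := by
  induction t with
  | zero =>
    have : {A : Oracle | ¬ NC W A []} = ∅ := by
      rw [Set.eq_empty_iff_forall_notMem]
      intro A hA
      exact hA List.Pairwise.nil
    simp [Ex, this, prob]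
  | succ t ih =>
    rw [Ex_succ]
    have hc := cK_pos n
    have hD := card_mul_cK n
    obtain ⟨h, hh⟩ : ∃ h : Cand → Cand → ℝ, h = fun κ κ' =>
      prob {A | κ' ∈ W A κ} + prob {A | κ ∈ W A κ'} := ⟨_, rfl⟩
    have h1 : ∀ κ ∈ cn n, cK n * Ex (cn n) (cK n) t (fun ks => prob {A | ¬ NC W A (κ :: ks)}) ≤
        cK n * (t ^ 2 * (2 * q' * cK n)) + cK n * (t * ∑ κ' ∈ cn n, cK n * h κ κ') := by
      intro κ _
      rw [← mul_add]
      refine mul_le_mul_of_nonneg_left ?_ hc.le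
      rw [← Ex_list_sum hD t (h κ)]
      refine le_trans ?_ (add_le_add ih le_rfl)
      rw [← Ex_add]
      refine Ex_mono hc.le fun ks _ _ => ?_
      have h2 : {A : Oracle | ¬ NC W A (κ :: ks)} ⊆ {A | ¬ NC W A ks} ∪
          {A | ∃ κ' ∈ ks, A ∈ ({A | κ' ∈ W A κ} ∪ {A | κ ∈ W A κ'} : Set Oracle)} := by
        intro A hA
        by_cases h3 : NC W A ks
        · right
          by_contra h4
          apply hA
          refine List.pairwise_cons.2 ⟨fun κ' hκ' => ⟨fun h5 => h4 ?_, fun h5 => h4 ?_⟩, h3⟩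
          · exact ⟨κ', hκ', Or.inl h5⟩
          · exact ⟨κ', hκ', Or.inr h5⟩
        · exact Or.inl h3
      refine (prob_mono h2).trans ((prob_union_le _ _).trans (add_le_add le_rfl ?_))
      refine (prob_exists_le ks _).trans ?_
      rw [hh]
      refine List.sum_le_sum fun κ' _ => prob_union_le _ _
    refine (Finset.sum_le_sum h1).trans ?_
    rw [Finset.sum_add_distrib, Finset.sum_const, nsmul_eq_mul, ← mul_assoc, hD, one_mul]
    have h3 : ∑ κ ∈ cn n, cK n * (t * ∑ κ' ∈ cn n, cK n * h κ κ') =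
        t * cK n ^ 2 * (∑ κ ∈ cn n, ∑ κ' ∈ cn n, h κ κ') := by
      rw [Finset.mul_sum]
      refine Finset.sum_congr rfl fun κ _ => ?_
      rw [← Finset.mul_sum]
      ring
    have h4 : ∑ κ ∈ cn n, ∑ κ' ∈ cn n, h κ κ' ≤ 2 * ((cn n).card * q') := by
      rw [hh]
      simp only [Finset.sum_add_distrib]
      have h5 : ∑ κ ∈ cn n, ∑ κ' ∈ cn n, prob {A | κ' ∈ W A κ} ≤ (cn n).card * q' := by
        rw [← nsmul_eq_mul, ← Finset.sum_const]
        refine Finset.sum_le_sum fun κ _ => ?_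
        exact sum_prob_mem (N := N) (fun A => W A κ) (fun A => hW A κ)
          (fun A A' h => by simp only [hl A A' h]) _
      have h6 : ∑ κ ∈ cn n, ∑ κ' ∈ cn n, prob {A | κ ∈ W A κ'} ≤ (cn n).card * q' := by
        rw [Finset.sum_comm, ← nsmul_eq_mul, ← Finset.sum_const]
        refine Finset.sum_le_sum fun κ _ => ?_
        exact sum_prob_mem (N := N) (fun A => W A κ) (fun A => hW A κ)
          (fun A A' h => by simp only [hl A A' h]) _
      linarith
    rw [h3]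
    have h5 : (t : ℝ) * cK n ^ 2 * (∑ κ ∈ cn n, ∑ κ' ∈ cn n, h κ κ') ≤
        t * (2 * q' * cK n) := by
      have h6 : (0 : ℝ) ≤ t * cK n ^ 2 := by positivity
      refine (mul_le_mul_of_nonneg_left h4 h6).trans (le_of_eq ?_)
      calc (t : ℝ) * cK n ^ 2 * (2 * ((cn n).card * q')) =
          t * (2 * q' * cK n) * ((cn n).card * cK n) := by ring
        _ = _ := by rw [hD, mul_one]
    have h6 : (0 : ℝ) ≤ 2 * q' * cK n := by positivity
    have h7 : (0 : ℝ) ≤ t := Nat.cast_nonneg t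
    push_cast
    nlinarith [mul_nonneg h7 h6]

/-! ### the deterministic part -/

theorem core_det (hC : Core n m N q α R T E) {A : Oracle} {l : List (Cand × Finset ℕ)}
    (hl : ∀ d ∈ l, d ∈ DD n m) {a : α}
    (ha : ∀ κ ∈ cn n, R a (sd κ) (bv m κ (plL m l A)) (plL m l A))
    {W : Cand → Finset Cand} (hW1 : ∀ κ, κ ∈ W κ)
    (hW2 : ∀ κ ∈ cn n, T a (sd κ) (bv m κ (plL m l A)) (plL m l A) ⊆ W κ)
    (hp : (l.map Prod.fst).Pairwise fun κ κ' => κ' ∉ W κ ∧ κ ∉ W κ') :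
    ∀ d ∈ l, gg R m a d A := by
  intro d hd
  have hnd : (l.map Prod.fst).Nodup := by
    refine List.Pairwise.imp ?_ hp
    rintro κ κ' ⟨h1, -⟩ rfl
    exact h1 (hW1 κ)
  have hdD := Finset.mem_product.1 (hl d hd)
  have hI : d.2 ⊆ Finset.range m := Finset.mem_powerset.1 hdD.2
  have hbv : bv m d.1 (plL m l A) = d.2 := by
    rw [bv_congr (A' := pl m d.1 d.2 A) fun s hs => plL_on hnd hd hs, bv_pl hI]
  have h1 := ha d.1 hdD.1
  rw [hbv] at h1
  refine hC.stab a (sd d.1) d.2 _ _ h1 (fun κ' hκ' s hs => ?_) (fun s hs => ?_)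
  · by_cases he : κ' = d.1
    · subst he
      exact (plL_on hnd hd hs).symm
    · have hnot : κ' ∉ l.map Prod.fst := by
        intro hmem
        have hsym : Std.Symm fun κ κ' : Cand => κ' ∉ W κ ∧ κ ∉ W κ' :=
          ⟨fun x y h => ⟨h.2, h.1⟩⟩
        have h3 := List.Pairwise.forall hp (List.mem_map_of_mem hd) hmem (Ne.symm he)
        have h4 := hW2 d.1 hdD.1
        rw [hbv] at h4
        exact h3.1 (h4 hκ')
      rw [plL_off, pl_off]
      · intro hs'
        exact he (M2.spots_disjoint hs hs')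
      · intro d' hd' hs'
        apply hnot
        rw [M2.spots_disjoint hs hs']
        exact List.mem_map_of_mem hd'
  · rw [plL_off, pl_off]
    · exact hs _ hdD.1
    · intro d' hd'
      exact hs _ (Finset.mem_product.1 (hl d' hd')).1

/-- some advice is good for all values of the block -/
def Gd (R : α → Bool → Finset ℕ → Oracle → Prop) (n m : ℕ) (Adv : Finset α) : Set Oracle :=
  {A | ∃ a ∈ Adv, ∀ κ ∈ cn n, R a (sd κ) (bv m κ A) A}

theorem spots_le (hN : n + m + 4 ≤ N) {κ : Cand} (hκ : κ ∈ cn n) {s : List Bool}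
    (hs : s ∈ spots m κ) : s.length ≤ N := by
  obtain ⟨i, hi, rfl⟩ := M2.mem_spots.1 hs
  rw [length_pos, (mem_cn.1 hκ).2]
  have := (mem_cn.1 hκ).1
  omega

theorem loc_Gd (hC : Core n m N q α R T E) (Adv : Finset α) :
    Loc {x | x.length ≤ N} (Gd R n m Adv) := by
  intro A A' h
  unfold Gd
  simp only [Set.mem_ofPred_eq]
  refine exists_congr fun a => and_congr_right fun _ => forall₂_congr fun κ hκ => ?_
  rw [bv_congr (A' := A') fun s hs => h s (spots_le hC.hN hκ hs)]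
  exact hC.locR a (sd κ) _ A A' h

/-- **The core inequality.** -/
theorem core_main [Inhabited α] (hC : Core n m N q α R T E) (Adv : Finset α) {τ : Set Oracle}
    (hτ : Loc {x | x.length ≤ n} τ) (t : ℕ) (hq : 2 * ((q : ℝ) / 2 ^ n) ≤ 1 / 8) :
    3 / 4 * (prob (τ ∩ Gd R n m Adv) - (t : ℝ) ^ 2 * (2 * ((q + 1 : ℕ) : ℝ) * cK n) -
      Adv.card * (15 / 16) ^ t) ≤
      (1 / 4) ^ n * ∑ w₀ ∈ sn n, ∑ w₁ ∈ sn n, 2 ^ m *
        prob ((E ∩ τ) ∩ Same m (0, w₀) (1, w₁)) := by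
  classical
  refine le_trans ?_ (markov hC hτ (θ := 3 / 4) (by norm_num))
  refine mul_le_mul_of_nonneg_left ?_ (by norm_num)
  have hnN : n ≤ N := by
    have := hC.hN
    omega
  have hτN : Loc {x | x.length ≤ N} τ := loc_mono_le hnN hτ
  have hτm : MeasurableSet τ := measurableSet_of_loc (finite_le _) hτ
  set K : Set (List Bool) := {x | x.length ≤ N} with hK
  set G := Gd R n m Adv with hG
  have hGl : Loc K G := loc_Gd hC Adv
  have hGm : MeasurableSet G := measurableSet_of_loc (finite_le _) hGl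
  -- the choice of the advice
  have hch : ∀ A : Oracle, ∃ a : α, M2.mask K A ∈ G →
      a ∈ Adv ∧ ∀ κ ∈ cn n, R a (sd κ) (bv m κ (M2.mask K A)) (M2.mask K A) := by
    intro A
    by_cases h : M2.mask K A ∈ G
    · obtain ⟨a, h1, h2⟩ := h
      exact ⟨a, fun _ => ⟨h1, h2⟩⟩
    · exact ⟨default, fun h' => absurd h' h⟩
  choose aF0 haF0 using hch
  obtain ⟨aF, haF⟩ : ∃ aF : Oracle → α, aF = fun A => aF0 (M2.mask K A) := ⟨_, rfl⟩
  have hmm : ∀ A : Oracle, M2.mask K (M2.mask K A) = M2.mask K A := by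
    intro A
    apply M2.mask_congr
    intro x hx
    exact M2.mask_eq hx
  have haF1 : ∀ A ∈ G, aF A ∈ Adv ∧ ∀ κ ∈ cn n, R (aF A) (sd κ) (bv m κ A) A := by
    intro A hA
    have h1 : M2.mask K A ∈ G := (hGl _ _ fun x hx => M2.mask_eq hx).2 hA
    have h2 := haF0 (M2.mask K A)
    rw [hmm] at h2
    obtain ⟨h3, h4⟩ := h2 h1
    rw [haF]
    refine ⟨h3, fun κ hκ => ?_⟩
    have h5 := h4 κ hκ
    rw [bv_congr (A' := A) fun s hs => M2.mask_eq (spots_le hC.hN hκ hs)] at h5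
    exact (hC.locR _ _ _ _ _ fun x hx => M2.mask_eq hx).1 h5
  obtain ⟨W, hW⟩ : ∃ W : Oracle → Cand → Finset Cand, W = fun A κ =>
    insert κ (T (aF A) (sd κ) (bv m κ (M2.mask K A)) A) := ⟨_, rfl⟩
  have hWc : ∀ A κ, (W A κ).card ≤ q + 1 := by
    intro A κ
    rw [hW]
    exact (Finset.card_insert_le _ _).trans (Nat.succ_le_succ (hC.cardT _ _ _ _))
  have hWl : ∀ A A' : Oracle, (∀ x : List Bool, x.length ≤ N → A x = A' x) → W A = W A' := by
    intro A A' h
    have h1 : M2.mask K A = M2.mask K A' := M2.mask_congr h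
    rw [hW, haF]
    funext κ
    simp only [h1]
    rw [hC.locT _ _ _ A A' h]
  have hclm : ∀ ks : List Cand, MeasurableSet {A | ¬ NC W A ks} := by
    intro ks
    refine measurableSet_of_loc (finite_le N) ?_
    intro A A' h
    simp only [Set.mem_ofPred_eq]
    unfold NC
    rw [hWl A A' h]
  -- resampling
  have e1 : prob (τ ∩ G) = Ex (DD n m) (cD n m) t
      (fun l => prob (plL m l ⁻¹' (τ ∩ G))) := by
    rw [Ex_pl n m t (fun _ => τ ∩ G) (fun _ => hτm.inter hGm), Ex_const (card_mul_cK n)]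
  have e2 : Ex (DD n m) (cD n m) t (fun l => prob (plL m l ⁻¹' {A | ¬ NC W A (l.map Prod.fst)})) ≤
      (t : ℝ) ^ 2 * (2 * ((q + 1 : ℕ) : ℝ) * cK n) := by
    rw [Ex_pl n m t (fun ks => {A | ¬ NC W A ks}) hclm]
    exact Ex_clash W hWc hWl t
  obtain ⟨τ', hτ'⟩ : ∃ τ' : Set Oracle, τ' = τ ∩ {A | ¬ (3 / 4 < phi n m E A)} := ⟨_, rfl⟩
  have hτ'N : Loc K τ' := by
    rw [hτ']
    intro A A' h
    refine and_congr (hτN A A' h) ?_
    simp only [Set.mem_ofPred_eq]
    rw [loc_phi hC.locE A A' h]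
  have e3 : ∀ a ∈ Adv, Ex (DD n m) (cD n m) t
      (fun l => prob {A | A ∈ τ' ∧ ∀ d ∈ l, gg R m a d A}) ≤ (15 / 16) ^ t := by
    intro a _
    refine Ex_adv hC a hτ'N (by norm_num) ?_ t
    intro A hA
    refine (rho_le hC a A).trans ?_
    rw [hτ'] at hA
    have h1 : phi n m E A ≤ 3 / 4 := not_lt.1 hA.2
    linarith
  have e4 : Ex (DD n m) (cD n m) t (fun l => prob (plL m l ⁻¹' (τ ∩ G))) ≤
      Ex (DD n m) (cD n m) t (fun l => prob (plL m l ⁻¹' {A | ¬ NC W A (l.map Prod.fst)})) +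
      (prob (τ ∩ {A | 3 / 4 < phi n m E A}) + ∑ a ∈ Adv, Ex (DD n m) (cD n m) t
        (fun l => prob {A | A ∈ τ' ∧ ∀ d ∈ l, gg R m a d A})) := by
    rw [← Ex_sum, ← Ex_const (card_mul_cD n m) t (prob (τ ∩ {A | 3 / 4 < phi n m E A})),
      ← Ex_add, ← Ex_add]
    refine Ex_mono (cD_pos n m).le fun l _ hl => ?_
    have h1 : plL m l ⁻¹' (τ ∩ G) ⊆ (plL m l ⁻¹' {A | ¬ NC W A (l.map Prod.fst)}) ∪
        ((τ ∩ {A | 3 / 4 < phi n m E A}) ∪
          ⋃ a ∈ Adv, {A | A ∈ τ' ∧ ∀ d ∈ l, gg R m a d A}) := by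
      rintro A ⟨h2, h3⟩
      by_cases h4 : NC W (plL m l A) (l.map Prod.fst)
      · right
        have h5 : A ∈ τ := by
          refine (hτ _ _ ?_).1 h2
          intro x hx
          apply plL_off
          intro d hd hs
          obtain ⟨i, hi, rfl⟩ := M2.mem_spots.1 hs
          have hx' : (pos d.1.1 i d.1.2).length ≤ n := hx
          rw [length_pos, (mem_cn.1 (Finset.mem_product.1 (hl d hd)).1).2] at hx'
          omega
        by_cases h6 : 3 / 4 < phi n m E A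
        · exact Or.inl ⟨h5, h6⟩
        · right
          obtain ⟨h7, h8⟩ := haF1 _ h3
          refine Set.mem_iUnion₂.2 ⟨aF (plL m l A), h7, ?_, ?_⟩
          · rw [hτ']
            exact ⟨h5, h6⟩
          · refine core_det hC hl h8 (W := W (plL m l A)) ?_ ?_ h4
            · intro κ
              rw [hW]
              exact Finset.mem_insert_self _ _
            · intro κ hκ
              rw [hW]
              have h9 : bv m κ (M2.mask K (plL m l A)) = bv m κ (plL m l A) :=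
                bv_congr fun s hs => M2.mask_eq (spots_le hC.hN hκ hs)
              simp only [h9]
              exact Finset.subset_insert _ _
      · exact Or.inl h4
    refine (prob_mono h1).trans ((prob_union_le _ _).trans (add_le_add le_rfl ?_))
    refine (prob_union_le _ _).trans (add_le_add le_rfl ?_)
    exact prob_biUnion_le Adv _
  have e5 : ∑ a ∈ Adv, Ex (DD n m) (cD n m) t
        (fun l => prob {A | A ∈ τ' ∧ ∀ d ∈ l, gg R m a d A}) ≤ Adv.card * (15 / 16) ^ t := by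
    rw [← nsmul_eq_mul, ← Finset.sum_const]
    exact Finset.sum_le_sum e3
  rw [e1]
  linarith

end

end Pool.Agent.H96R.DP2
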