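import Pool.Agent.H96R.DP.Ineq

/-!
# Iterated averages and the resampling of several values
-/

set_option autoImplicit false

namespace Pool.Agent.H96R.DP2

open MeasureTheory Pool.Agent.NPC Pool.Agent.H628R3.RO Pool.Agent.H96R.DP

/-- iterated average over lists of length `t`, each entry having weight `c` -/
def Ex {δ : Type} (D : Finset δ) (c : ℝ) : ℕ → (List δ → ℝ) → ℝ
  | 0, F => F []
  | t + 1, F => ∑ d ∈ D, c * Ex D c t (fun l => F (d :: l))

section

variable {δ : Type} {D : Finset δ} {c : ℝ}

theorem Ex_succ (t : ℕ) (F : List δ → ℝ) :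
    Ex D c (t + 1) F = ∑ d ∈ D, c * Ex D c t (fun l => F (d :: l)) := rfl

theorem Ex_mono (hc : 0 ≤ c) : ∀ {t : ℕ} {F G : List δ → ℝ},
    (∀ l, l.length = t → (∀ d ∈ l, d ∈ D) → F l ≤ G l) → Ex D c t F ≤ Ex D c t G
  | 0, F, G, h => h [] rfl (by simp)
  | t + 1, F, G, h => by
    rw [Ex_succ, Ex_succ]
    refine Finset.sum_le_sum fun d hd => mul_le_mul_of_nonneg_left ?_ hc
    refine Ex_mono hc fun l hl hl' => h (d :: l) (by simp [hl]) ?_
    intro d' hd'
    rcases List.mem_cons.1 hd' with rfl | hd'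
    · exact hd
    · exact hl' d' hd'

theorem Ex_congr {t : ℕ} {F G : List δ → ℝ}
    (h : ∀ l, l.length = t → (∀ d ∈ l, d ∈ D) → F l = G l) : Ex D c t F = Ex D c t G := by
  induction t generalizing F G with
  | zero => exact h [] rfl (by simp)
  | succ t ih =>
    rw [Ex_succ, Ex_succ]
    refine Finset.sum_congr rfl fun d hd => ?_
    congr 1
    refine ih fun l hl hl' => h (d :: l) (by simp [hl]) ?_
    intro d' hd'
    rcases List.mem_cons.1 hd' with rfl | hd'
    · exact hd
    · exact hl' d' hd'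

theorem Ex_add (t : ℕ) (F G : List δ → ℝ) :
    Ex D c t (fun l => F l + G l) = Ex D c t F + Ex D c t G := by
  induction t generalizing F G with
  | zero => rfl
  | succ t ih =>
    rw [Ex_succ, Ex_succ, Ex_succ, ← Finset.sum_add_distrib]
    refine Finset.sum_congr rfl fun d _ => ?_
    rw [ih]
    ring

theorem Ex_const_mul (t : ℕ) (a : ℝ) (F : List δ → ℝ) :
    Ex D c t (fun l => a * F l) = a * Ex D c t F := by
  induction t generalizing F with
  | zero => rfl
  | succ t ih =>
    rw [Ex_succ, Ex_succ, Finset.mul_sum]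
    refine Finset.sum_congr rfl fun d _ => ?_
    rw [ih]
    ring

theorem Ex_zero (t : ℕ) : Ex D c t (fun _ => (0 : ℝ)) = 0 := by
  induction t with
  | zero => rfl
  | succ t ih =>
    rw [Ex_succ, ih]
    simp

theorem Ex_sum {ι : Type} (s : Finset ι) (t : ℕ) (F : ι → List δ → ℝ) :
    Ex D c t (fun l => ∑ i ∈ s, F i l) = ∑ i ∈ s, Ex D c t (F i) := by
  classical
  induction s using Finset.induction_on with
  | empty => simp [Ex_zero]
  | insert a s ha ih =>
    rw [Finset.sum_insert ha, ← ih, ← Ex_add]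
    refine Ex_congr fun l _ _ => ?_
    rw [Finset.sum_insert ha]

theorem Ex_const (hD : (D.card : ℝ) * c = 1) (t : ℕ) (a : ℝ) : Ex D c t (fun _ => a) = a := by
  induction t with
  | zero => rfl
  | succ t ih =>
    rw [Ex_succ, ih, Finset.sum_const, nsmul_eq_mul, ← mul_assoc, hD, one_mul]

theorem Ex_prod (t : ℕ) (g : δ → ℝ) :
    Ex D c t (fun l => (l.map g).prod) = (∑ d ∈ D, c * g d) ^ t := by
  induction t with
  | zero => simp [Ex]
  | succ t ih =>
    rw [Ex_succ]
    have : ∀ d ∈ D, c * Ex D c t (fun l => ((d :: l).map g).prod) =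
        c * g d * (∑ d ∈ D, c * g d) ^ t := by
      intro d _
      have h1 : Ex D c t (fun l => ((d :: l).map g).prod) =
          g d * Ex D c t (fun l => (l.map g).prod) := by
        rw [← Ex_const_mul]
        exact Ex_congr fun l _ _ => by simp
      rw [h1, ih]
      ring
    rw [Finset.sum_congr rfl this, ← Finset.sum_mul, pow_succ]
    ring

theorem Ex_list_sum (hD : (D.card : ℝ) * c = 1) (t : ℕ) (g : δ → ℝ) :
    Ex D c t (fun l => (l.map g).sum) = t * ∑ d ∈ D, c * g d := by
  induction t with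
  | zero => simp [Ex]
  | succ t ih =>
    rw [Ex_succ]
    have : ∀ d ∈ D, c * Ex D c t (fun l => ((d :: l).map g).sum) =
        c * g d + c * (t * ∑ d ∈ D, c * g d) := by
      intro d _
      rw [← ih, ← mul_add]
      congr 1
      rw [← Ex_const hD t (g d), ← Ex_add]
      refine Ex_congr fun l _ _ => ?_
      simp [Ex_const hD]
    rw [Finset.sum_congr rfl this, Finset.sum_add_distrib, Finset.sum_const, nsmul_eq_mul,
      ← mul_assoc, hD, one_mul]
    push_cast
    ring

end

/-! ### resampling -/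

/-- plant several values -/
def plL (m : ℕ) (l : List (Cand × Finset ℕ)) (A : Oracle) : Oracle :=
  l.foldr (fun d A => pl m d.1 d.2 A) A

theorem plL_cons (m : ℕ) (d : Cand × Finset ℕ) (l : List (Cand × Finset ℕ)) (A : Oracle) :
    plL m (d :: l) A = pl m d.1 d.2 (plL m l A) := rfl

theorem plL_off {m : ℕ} {l : List (Cand × Finset ℕ)} {A : Oracle} {x : List Bool}
    (h : ∀ d ∈ l, x ∉ spots m d.1) : plL m l A x = A x := by
  induction l with
  | nil => rfl
  | cons d l ih =>
    rw [plL_cons, pl_off (h d (by simp))]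
    exact ih fun d' hd' => h d' (List.mem_cons_of_mem _ hd')

theorem plL_on {m : ℕ} {l : List (Cand × Finset ℕ)} (hl : (l.map Prod.fst).Nodup) {A : Oracle}
    {d : Cand × Finset ℕ} (hd : d ∈ l) {x : List Bool} (hx : x ∈ spots m d.1) :
    plL m l A x = pl m d.1 d.2 A x := by
  induction l with
  | nil => simp at hd
  | cons e l ih =>
    rw [plL_cons]
    rw [List.map_cons, List.nodup_cons] at hl
    rcases List.mem_cons.1 hd with rfl | hd'
    · unfold pl
      rw [if_pos hx, if_pos hx]
    · have hne : x ∉ spots m e.1 := by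
        intro hx'
        have h1 := M2.spots_disjoint hx hx'
        apply hl.1
        rw [← h1]
        exact List.mem_map_of_mem hd'
      rw [pl_off hne]
      exact ih hl.2 hd'

theorem measurable_plL (m : ℕ) (l : List (Cand × Finset ℕ)) : Measurable (plL m l) := by
  induction l with
  | nil => exact measurable_id
  | cons d l ih => exact (measurable_pl m d.1 d.2).comp ih

/-- the weight of a candidate -/
noncomputable def cK (n : ℕ) : ℝ := 1 / (2 * 2 ^ n)

/-- the weight of a candidate with a value -/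
noncomputable def cD (n m : ℕ) : ℝ := cK n * (1 / 2) ^ m

/-- the candidates with values -/
def DD (n m : ℕ) : Finset (Cand × Finset ℕ) := cn n ×ˢ (Finset.range m).powerset

theorem cK_pos (n : ℕ) : 0 < cK n := by unfold cK; positivity

theorem cD_pos (n m : ℕ) : 0 < cD n m := by
  unfold cD
  have := cK_pos n
  positivity

theorem card_mul_cK (n : ℕ) : ((cn n).card : ℝ) * cK n = 1 := by
  rw [card_cn]
  unfold cK
  push_cast
  field_simp

theorem card_mul_cD (n m : ℕ) : ((DD n m).card : ℝ) * cD n m = 1 := by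
  unfold DD cD
  rw [Finset.card_product, Finset.card_powerset, Finset.card_range]
  push_cast
  have h1 := card_mul_cK n
  have h2 : (2 : ℝ) ^ m * (1 / 2) ^ m = 1 := by rw [← mul_pow]; norm_num
  calc ((cn n).card : ℝ) * 2 ^ m * (cK n * (1 / 2) ^ m) =
      (((cn n).card : ℝ) * cK n) * (2 ^ m * (1 / 2) ^ m) := by ring
    _ = 1 := by rw [h1, h2, one_mul]

theorem Ex_pl (n m t : ℕ) (S : List Cand → Set Oracle) (hS : ∀ ks, MeasurableSet (S ks)) :
    Ex (DD n m) (cD n m) t (fun l => prob (plL m l ⁻¹' S (l.map Prod.fst))) =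
      Ex (cn n) (cK n) t (fun ks => prob (S ks)) := by
  induction t generalizing S with
  | zero => rfl
  | succ t ih =>
    rw [Ex_succ, Ex_succ]
    have h1 : ∀ d ∈ DD n m, cD n m * Ex (DD n m) (cD n m) t (fun l =>
        prob (plL m (d :: l) ⁻¹' S ((d :: l).map Prod.fst))) =
        cD n m * Ex (cn n) (cK n) t (fun ks => prob (pl m d.1 d.2 ⁻¹' S (d.1 :: ks))) := by
      intro d _
      rw [← ih (fun ks => pl m d.1 d.2 ⁻¹' S (d.1 :: ks))
        (fun ks => measurable_pl m d.1 d.2 (hS _))]
      rfl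
    rw [Finset.sum_congr rfl h1]
    unfold DD
    rw [Finset.sum_product]
    refine Finset.sum_congr rfl fun κ _ => ?_
    unfold cD
    have h2 : ∀ ks : List Cand, prob (S (κ :: ks)) =
        ∑ I ∈ (Finset.range m).powerset, (1 / 2) ^ m * prob (pl m κ I ⁻¹' S (κ :: ks)) :=
      fun ks => prob_pl (hS _) m κ
    have h3 : Ex (cn n) (cK n) t (fun ks => prob (S (κ :: ks))) =
        ∑ I ∈ (Finset.range m).powerset, (1 / 2) ^ m *
          Ex (cn n) (cK n) t (fun ks => prob (pl m κ I ⁻¹' S (κ :: ks))) := by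
      rw [Ex_congr (fun ks _ _ => h2 ks), Ex_sum]
      refine Finset.sum_congr rfl fun I _ => ?_
      rw [Ex_const_mul]
    rw [h3, Finset.mul_sum]
    refine Finset.sum_congr rfl fun I _ => ?_
    ring

end Pool.Agent.H96R.DP2
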