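import Pool.Agent.H96R.DP2.Core2

/-!
# The key inequality for reductions with advice
-/

set_option autoImplicit false

namespace Pool.Agent.H96R.DP2

open MeasureTheory Pool.Agent.NPC Pool.Agent.H628R3.RO Pool.Agent.H96R.DP

/-- The reduction `r` works at block `n` with some advice of length at most `S`. -/
def GoodA (B : Oracle) (V : Bool → Alg) (p : Bool → Polynomial ℕ) (r : Alg) (n j S : ℕ) :
    Set Oracle :=
  {A | ∃ a : List Bool, a.length ≤ S ∧ ∀ c : Bool, ∀ w ∈ sn n, ∃ z,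
    r.out (jn A B) (pairBits (inst n (vl (nb n j) (c.toNat, w) A)) a) = some z ∧
      Wit (V c) (p c) z (jn A B)}

/-- success at one value -/
def RR (B : Oracle) (V : Bool → Alg) (p : Bool → Polynomial ℕ) (r : Alg) (n j S : ℕ)
    (a : List Bool) (c : Bool) (I : Finset ℕ) (A : Oracle) : Prop :=
  a.length ≤ S ∧ ∃ z, r.out (jn A B) (pairBits (inst n (vI (nb n j) I)) a) = some z ∧
    Wit (V c) (p c) z (jn A B)

/-- the advice strings -/
noncomputable def Av (S : ℕ) : Finset (List Bool) := (finite_length_le S).toFinset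

theorem mem_Av {S : ℕ} {a : List Bool} : a ∈ Av S ↔ a.length ≤ S := by
  unfold Av
  rw [Set.Finite.mem_toFinset]
  rfl

theorem card_Av (S : ℕ) : (Av S).card ≤ 2 ^ (S + 1) := by
  have h1 : Av S ⊆ (strs S).toFinset := by
    intro a ha
    rw [List.mem_toFinset, mem_strs]
    exact mem_Av.1 ha
  refine (Finset.card_le_card h1).trans ((List.toFinset_card_le _).trans ?_)
  have := length_strs S
  omega

theorem loc_RR (B : Oracle) (V : Bool → Alg) (p : Bool → Polynomial ℕ) (r : Alg) (n j S : ℕ) :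
    ∃ N, ∀ N' ≥ N, ∀ a c I, Loc {x | x.length ≤ N'} {A | RR B V p r n j S a c I A} := by
  obtain ⟨q0, -, h0⟩ := wit_congr (V false) (p false)
  obtain ⟨q1, -, h1⟩ := wit_congr (V true) (p true)
  obtain ⟨qr, hqr⟩ := r.out_congr
  obtain ⟨br, hbr⟩ := r.out_length
  obtain ⟨M, hM⟩ : ∃ M, M = 2 * (n + 1 + nb n j) + 1 + S := ⟨_, rfl⟩
  refine ⟨q0.eval (br.eval M) + q1.eval (br.eval M) + qr.eval M, fun N' hN' a c I => ?_⟩
  intro A A' h
  have h' : ∀ y : List Bool, y.length ≤ N' → A y = A' y := fun y hy => h y hy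
  simp only [Set.mem_ofPred_eq]
  unfold RR
  refine and_congr_right fun ha => exists_congr fun z => ?_
  have hlen : (pairBits (inst n (vI (nb n j) I)) a).length ≤ M := by
    rw [Pool.Agent.H628R3.RO.length_pairBits, length_inst, length_vI, hM]
    omega
  have e2 : r.out (jn A B) (pairBits (inst n (vI (nb n j) I)) a) =
      r.out (jn A' B) (pairBits (inst n (vI (nb n j) I)) a) := by
    apply hqr _ _ _ M hlen
    apply jn_congr
    intro y hy
    apply h'
    omega
  rw [e2]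
  refine and_congr_right fun hz => ?_
  have hzl : z.length ≤ br.eval M := (hbr _ _ _ hz).trans (eval_mono br hlen)
  cases c
  · apply h0 B A A' _ z hzl
    intro y hy
    apply h'
    omega
  · apply h1 B A A' _ z hzl
    intro y hy
    apply h'
    omega

/-- the core properties for the reduction `r` -/
theorem exists_core (B : Oracle) (V : Bool → Alg) (p : Bool → Polynomial ℕ) (r : Alg)
    {n j S q : ℕ} (hq : q ≤ 2 ^ n)
    (htouch : ∀ (c : Bool) (A : Oracle) (x : List Bool),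
      x.length ≤ 2 * (n + 1 + nb n j) + 1 + S →
      (∃ z, r.out (jn A B) x = some z ∧ Wit (V c) (p c) z (jn A B)) →
      ∃ (z : List Bool) (Q : Finset (List Bool)), Q.card ≤ q ∧ z.length ≤ q ∧
        ∀ A' : Oracle, (∀ s ∈ Q, A' s = A s) →
          r.out (jn A' B) x = some z ∧ Wit (V c) (p c) z (jn A' B)) :
    ∃ (N : ℕ) (T : List Bool → Bool → Finset ℕ → Oracle → Finset Cand),
      Core n (nb n j) N q (List Bool) (RR B V p r n j S) T (Err B V p n) := by
  classical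
  obtain ⟨N₁, hN₁⟩ := loc_RR B V p r n j S
  obtain ⟨b, hb⟩ := loc_Err V p
  obtain ⟨N, hN⟩ : ∃ N, N = N₁ + b.eval (2 ^ n) + (n + nb n j + 4) := ⟨_, rfl⟩
  set m := nb n j with hm
  set K : Set (List Bool) := {x | x.length ≤ N} with hK
  have hlen : ∀ (a : List Bool) (I : Finset ℕ), a.length ≤ S →
      (pairBits (inst n (vI m I)) a).length ≤ 2 * (n + 1 + m) + 1 + S := by
    intro a I ha
    rw [Pool.Agent.H628R3.RO.length_pairBits, length_inst, length_vI]
    omega
  have hch : ∀ (a : List Bool) (c : Bool) (I : Finset ℕ) (A : Oracle), ∃ T : Finset Cand,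
      T.card ≤ q ∧ (RR B V p r n j S a c I A → ∀ A' : Oracle,
        (∀ κ ∈ T, ∀ s ∈ spots m κ, A' s = A s) →
        (∀ s, (∀ κ ∈ cn n, s ∉ spots m κ) → A' s = A s) → RR B V p r n j S a c I A') := by
    intro a c I A
    by_cases h : RR B V p r n j S a c I A
    · obtain ⟨z, Q, h1, h2, h3⟩ := htouch c A _ (hlen a I h.1) h.2
      refine ⟨tch m n Q, (card_tch m n Q).trans h1, fun _ A' hA1 hA2 => ⟨h.1, z, ?_⟩⟩
      apply h3 A'
      intro s hs
      by_cases hs' : ∃ κ ∈ cn n, s ∈ spots m κ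
      · obtain ⟨κ, hκ, hκs⟩ := hs'
        exact hA1 κ (Finset.mem_filter.2 ⟨hκ, s, hs, hκs⟩) s hκs
      · push Not at hs'
        exact hA2 s hs'
    · exact ⟨∅, by simp, fun h' => absurd h' h⟩
  choose T0 hT1 hT2 using hch
  refine ⟨N, fun a c I A => T0 a c I (M2.mask K A), ?_, ?_, ?_, ?_, ?_, ?_, ?_⟩
  · omega
  · exact hN₁ N (by omega)
  · intro a c I A A' h
    have : M2.mask K A = M2.mask K A' := M2.mask_congr h
    show T0 a c I (M2.mask K A) = T0 a c I (M2.mask K A')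
    rw [this]
  · exact loc_mono_le (by omega) (hb B n)
  · intro a c I A
    exact hT1 _ _ _ _
  · intro a c I A A' h h1 h2
    have hloc := hN₁ N (by omega) a c I
    have e1 : RR B V p r n j S a c I (M2.mask K A) :=
      (hloc _ _ fun x hx => M2.mask_eq hx).2 h
    have hmask : ∀ s, A' s = A s → M2.mask K A' s = M2.mask K A s := by
      intro s hs
      unfold M2.mask
      rw [hs]
    have e2 := hT2 a c I (M2.mask K A) e1 (M2.mask K A')
      (fun κ hκ s hs => hmask s (h1 κ hκ s hs)) (fun s hs => hmask s (h2 s hs))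
    exact (hloc _ _ fun x hx => M2.mask_eq hx).1 e2
  · intro a I A h0 h1
    obtain ⟨ha, z, hz, hw0⟩ := h0
    obtain ⟨-, z', hz', hw1⟩ := h1
    have hzz : z = z' := by
      rw [hz] at hz'
      exact Option.some.inj hz'
    subst hzz
    obtain ⟨z'', Q, -, h2, h3⟩ := htouch false A _ (hlen a I ha) ⟨z, hz, hw0⟩
    have h4 := (h3 A fun s _ => rfl).1
    have hzz : z = z'' := by
      rw [hz] at h4
      exact Option.some.inj h4
    subst hzz
    refine ⟨z, h2.trans hq, fun c => ?_⟩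
    cases c
    · exact hw0
    · exact hw1

theorem GoodA_subset (B : Oracle) (V : Bool → Alg) (p : Bool → Polynomial ℕ) (r : Alg)
    (n j S : ℕ) : GoodA B V p r n j S ⊆ Gd (RR B V p r n j S) n (nb n j) (Av S) := by
  rintro A ⟨a, ha, h⟩
  refine ⟨a, mem_Av.2 ha, ?_⟩
  rintro ⟨c, w⟩ hκ
  obtain ⟨hc, hw⟩ := mem_cn.1 hκ
  refine ⟨ha, ?_⟩
  rw [vI_bv]
  have hw' : w ∈ sn n := mem_sn.2 hw
  have hc' : c = 0 ∨ c = 1 := by
    simp only at hc
    omega
  rcases hc' with rfl | rfl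
  · exact h false w hw'
  · exact h true w hw'

/-- **The key inequality** for reductions with advice. -/
theorem key' (B : Oracle) (V : Bool → Alg) (p : Bool → Polynomial ℕ) (r : Alg)
    {n j S q : ℕ} (hq : q ≤ 2 ^ n) (hq' : 2 * ((q : ℝ) / 2 ^ n) ≤ 1 / 8)
    (htouch : ∀ (c : Bool) (A : Oracle) (x : List Bool),
      x.length ≤ 2 * (n + 1 + nb n j) + 1 + S →
      (∃ z, r.out (jn A B) x = some z ∧ Wit (V c) (p c) z (jn A B)) →
      ∃ (z : List Bool) (Q : Finset (List Bool)), Q.card ≤ q ∧ z.length ≤ q ∧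
        ∀ A' : Oracle, (∀ s ∈ Q, A' s = A s) →
          r.out (jn A' B) x = some z ∧ Wit (V c) (p c) z (jn A' B))
    (t : ℕ) {τ : Set Oracle} (hτ : Loc {x | x.length ≤ n} τ) :
    eps j * (3 / 4 * (prob (τ ∩ GoodA B V p r n j S) -
      ((t : ℝ) ^ 2 * (2 * ((q + 1 : ℕ) : ℝ) * cK n) + 2 ^ (S + 1) * (15 / 16) ^ t)) -
        eps j * prob τ) ≤ prob (τ ∩ (Bad n j ∩ Err B V p n)) := by
  obtain ⟨N, T, hC⟩ := exists_core B V p r hq htouch
  have h1 := core_main hC (Av S) hτ t hq'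
  have h2 := sum_Same_le (n := n) (j := j) (E := Err B V p n) hτ (measurableSet_Err V p B n)
  rw [Finset.sum_product] at h2
  have h3 : (Err B V p n ∩ τ) ∩ Bad n j = τ ∩ (Bad n j ∩ Err B V p n) := by
    ext A
    simp only [Set.mem_inter_iff]
    tauto
  rw [h3] at h2
  set SS := ∑ w₀ ∈ sn n, ∑ w₁ ∈ sn n,
    prob ((Err B V p n ∩ τ) ∩ Same (nb n j) (0, w₀) (1, w₁)) with hS
  have h4 : ∑ w₀ ∈ sn n, ∑ w₁ ∈ sn n, 2 ^ (nb n j) *
      prob ((Err B V p n ∩ τ) ∩ Same (nb n j) (0, w₀) (1, w₁)) = 2 ^ (nb n j) * SS := by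
    rw [hS, Finset.mul_sum]
    refine Finset.sum_congr rfl fun w₀ _ => ?_
    rw [Finset.mul_sum]
  rw [h4] at h1
  have h5 := eps_pos j
  have h6 : eps j * ((1 / 4) ^ n * (2 ^ (nb n j) * SS)) = SS := by
    rw [← four_mul_half n j]
    have e1 : (4 : ℝ) ^ n * (1 / 4) ^ n = 1 := by rw [← mul_pow]; norm_num
    have e2 : (1 / 2 : ℝ) ^ (nb n j) * 2 ^ (nb n j) = 1 := by rw [← mul_pow]; norm_num
    calc (4 : ℝ) ^ n * (1 / 2) ^ nb n j * ((1 / 4) ^ n * (2 ^ nb n j * SS)) =
        (4 ^ n * (1 / 4) ^ n) * ((1 / 2) ^ nb n j * 2 ^ nb n j) * SS := by ring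
      _ = SS := by rw [e1, e2]; ring
  have h7 := mul_le_mul_of_nonneg_left h1 h5.le
  rw [h6] at h7
  have h8 : prob (τ ∩ GoodA B V p r n j S) ≤
      prob (τ ∩ Gd (RR B V p r n j S) n (nb n j) (Av S)) :=
    prob_mono (Set.inter_subset_inter_right _ (GoodA_subset B V p r n j S))
  have h9 : ((Av S).card : ℝ) * (15 / 16) ^ t ≤ 2 ^ (S + 1) * (15 / 16) ^ t := by
    refine mul_le_mul_of_nonneg_right ?_ (by positivity)
    exact_mod_cast card_Av S
  have h10 : eps j * (3 / 4 * (prob (τ ∩ GoodA B V p r n j S) -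
      ((t : ℝ) ^ 2 * (2 * ((q + 1 : ℕ) : ℝ) * cK n) + 2 ^ (S + 1) * (15 / 16) ^ t))) ≤
      eps j * (3 / 4 * (prob (τ ∩ Gd (RR B V p r n j S) n (nb n j) (Av S)) -
      (t : ℝ) ^ 2 * (2 * ((q + 1 : ℕ) : ℝ) * cK n) - (Av S).card * (15 / 16) ^ t)) := by
    refine mul_le_mul_of_nonneg_left ?_ h5.le
    linarith
  nlinarith

end Pool.Agent.H96R.DP2
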